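import Pool.Agent.Helper914_Men.Defs

/-!
Menger sets: the working notion `Mg` for subsets of a space, in terms of increasing sequences of
open sets, and its closure properties.
-/

namespace Pool.Agent.Helper914M

open Set Filter Cardinal Topology

/-- A working form of the Menger property, for subsets of a space. -/
def Mg {α : Type} [TopologicalSpace α] (X : Set α) : Prop :=
  ∀ U : ℕ → ℕ → Set α, (∀ n m, IsOpen (U n m)) → (∀ n, Monotone (U n)) →
    (∀ n, ∀ x ∈ X, ∃ m, x ∈ U n m) → ∃ g : ℕ → ℕ, ∀ x ∈ X, ∃ n, x ∈ U n (g n)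

/-- Infinitely often version. -/
theorem Mg.freq {α : Type} [TopologicalSpace α] {X : Set α} (h : Mg X)
    (U : ℕ → ℕ → Set α) (hU : ∀ n m, IsOpen (U n m)) (hm : ∀ n, Monotone (U n))
    (hc : ∀ n, ∀ x ∈ X, ∃ m, x ∈ U n m) :
    ∃ g : ℕ → ℕ, Monotone g ∧ ∀ x ∈ X, ∃ᶠ n in atTop, x ∈ U n (g n) := by
  have h1 : ∀ k, ∃ g : ℕ → ℕ, ∀ x ∈ X, ∃ n, x ∈ U (k + n) (g n) := fun k =>
    h (fun n => U (k + n)) (fun n m => hU _ _) (fun n => hm _) (fun n => hc _)
  choose g hg using h1
  let G : ℕ → ℕ := fun N => (Finset.range (N + 1)).sup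
    (fun N' => (Finset.range (N' + 1)).sup fun k => g k (N' - k))
  refine ⟨G, ?_, ?_⟩
  · intro a b hab
    exact Finset.sup_mono (Finset.range_mono (by omega))
  · intro x hx
    rw [frequently_atTop]
    intro k
    obtain ⟨n, hn⟩ := hg k x hx
    refine ⟨k + n, Nat.le_add_right _ _, hm _ ?_ hn⟩
    have h2 : g k n ≤ (Finset.range (k + n + 1)).sup fun k' => g k' (k + n - k') := by
      have := Finset.le_sup (f := fun k' => g k' (k + n - k'))
        (Finset.mem_range.2 (show k < k + n + 1 by omega))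
      simpa using this
    exact h2.trans (Finset.le_sup (f := fun N' => (Finset.range (N' + 1)).sup
      fun k => g k (N' - k)) (Finset.mem_range.2 (by omega)))

/-- The working form agrees with the definition. -/
theorem mengerSp_iff {α : Type} [TopologicalSpace α] [SecondCountableTopology α] (X : Set α) :
    MengerSp X ↔ Mg X := by
  classical
  constructor
  · intro h U hU hm hc
    obtain ⟨F, hF, hF2⟩ := h (fun n => {u | ∃ m, u = Subtype.val ⁻¹' (U n m)}) (by
      intro n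
      constructor
      · rintro u ⟨m, rfl⟩
        exact (hU n m).preimage continuous_subtype_val
      · rw [eq_univ_iff_forall]
        rintro ⟨x, hx⟩
        obtain ⟨m, hm⟩ := hc n x hx
        exact ⟨_, ⟨m, rfl⟩, hm⟩)
    have h1 : ∀ n, ∃ m, ∀ u ∈ F n, u ⊆ Subtype.val ⁻¹' (U n m) := by
      intro n
      have h2 : ∀ u : F n, ∃ m, (u : Set X) = Subtype.val ⁻¹' (U n m) := fun u => (hF n).1 u.2
      choose m hm' using h2
      have : Finite (F n) := (hF n).2.to_subtype
      have := Fintype.ofFinite (F n)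
      refine ⟨Finset.univ.sup m, fun u hu => ?_⟩
      have h3 := hm' ⟨u, hu⟩
      simp only at h3
      rw [h3]
      exact preimage_mono (hm n (Finset.le_sup (f := m) (Finset.mem_univ _)))
    choose g hg using h1
    refine ⟨g, fun x hx => ?_⟩
    have : (⟨x, hx⟩ : X) ∈ ⋃ n, ⋃₀ F n := by rw [hF2]; trivial
    obtain ⟨n, hn⟩ := mem_iUnion.1 this
    obtain ⟨u, hu, hxu⟩ := hn
    exact ⟨n, hg n u hu hxu⟩
  · intro h U hU
    have h1 : ∀ n, ∃ T ⊆ U n, T.Countable ∧ ⋃₀ T = Set.univ := by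
      intro n
      obtain ⟨T, hT, hTU, hTe⟩ := TopologicalSpace.isOpen_sUnion_countable (U n) (hU n).1
      exact ⟨T, hTU, hT, hTe.trans (hU n).2⟩
    choose T hTU hTc hTe using h1
    by_cases hne : Nonempty X
    · obtain ⟨x₀⟩ := hne
      have h2 : ∀ n, ∃ t : ℕ → Set X, T n = range t := by
        intro n
        apply (hTc n).exists_eq_range
        have : x₀ ∈ ⋃₀ T n := by rw [hTe n]; trivial
        obtain ⟨u, hu, _⟩ := this
        exact ⟨u, hu⟩
      choose t ht using h2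
      have h3 : ∀ n k, ∃ V : Set α, IsOpen V ∧ Subtype.val ⁻¹' V = t n k := by
        intro n k
        have : IsOpen (t n k) := (hU n).1 _ (hTU n (by rw [ht n]; exact ⟨k, rfl⟩))
        exact isOpen_induced_iff.1 this
      choose V hV hVt using h3
      obtain ⟨g, hg⟩ := h (fun n m => ⋃ k ∈ Finset.range m, V n k)
        (fun n m => isOpen_biUnion fun k _ => hV n k)
        (fun n a b hab => biUnion_subset_biUnion_left (by
          intro k hk
          have hk' : k ∈ Finset.range a := hk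
          show k ∈ Finset.range b
          rw [Finset.mem_range] at *
          omega))
        (by
          intro n x hx
          have : (⟨x, hx⟩ : X) ∈ ⋃₀ T n := by rw [hTe n]; trivial
          obtain ⟨u, hu, hxu⟩ := this
          rw [ht n] at hu
          obtain ⟨k, rfl⟩ := hu
          rw [← hVt] at hxu
          exact ⟨k + 1, mem_iUnion₂.2 ⟨k, Finset.mem_range.2 (by omega), hxu⟩⟩)
      refine ⟨fun n => (t n) '' (Iio (g n)), fun n => ⟨?_, (finite_Iio _).image _⟩, ?_⟩
      · rintro _ ⟨k, _, rfl⟩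
        exact hTU n (by rw [ht n]; exact ⟨k, rfl⟩)
      · rw [eq_univ_iff_forall]
        rintro ⟨x, hx⟩
        obtain ⟨n, hn⟩ := hg x hx
        obtain ⟨k, hk, hxk⟩ := mem_iUnion₂.1 hn
        refine mem_iUnion.2 ⟨n, t n k, ⟨k, Finset.mem_range.1 hk, rfl⟩, ?_⟩
        rw [← hVt]
        exact hxk
    · refine ⟨fun _ => ∅, fun n => ⟨empty_subset _, finite_empty⟩, ?_⟩
      rw [eq_univ_iff_forall]
      intro x
      exact absurd ⟨x⟩ hne

section
variable {α β : Type} [TopologicalSpace α] [TopologicalSpace β]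

theorem Mg.inter_closed {X C : Set α} (h : Mg X) (hC : IsClosed C) : Mg (X ∩ C) := by
  intro U hU hm hc
  obtain ⟨g, hg⟩ := h (fun n m => U n m ∪ Cᶜ) (fun n m => (hU n m).union hC.isOpen_compl)
    (fun n a b hab => union_subset_union_left _ (hm n hab)) (by
      intro n x hx
      by_cases hxC : x ∈ C
      · obtain ⟨m, hm'⟩ := hc n x ⟨hx, hxC⟩
        exact ⟨m, Or.inl hm'⟩
      · exact ⟨0, Or.inr hxC⟩)
  refine ⟨g, fun x hx => ?_⟩
  obtain ⟨n, hn⟩ := hg x hx.1
  exact ⟨n, hn.resolve_right (fun h => h hx.2)⟩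

theorem Mg.image {X : Set α} (h : Mg X) {f : α → β} (hf : Continuous f) : Mg (f '' X) := by
  intro U hU hm hc
  obtain ⟨g, hg⟩ := h (fun n m => f ⁻¹' (U n m)) (fun n m => (hU n m).preimage hf)
    (fun n a b hab => preimage_mono (hm n hab)) (fun n x hx => hc n _ ⟨x, hx, rfl⟩)
  refine ⟨g, ?_⟩
  rintro _ ⟨x, hx, rfl⟩
  exact hg x hx

theorem Mg.of_inducing {X : Set α} {f : α → β} (hf : IsInducing f) (h : Mg (f '' X)) :
    Mg X := by
  intro U hU hm hc
  have h1 : ∀ n m, ∃ V : Set β, IsOpen V ∧ f ⁻¹' V = U n m := fun n m =>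
    hf.isOpen_iff.1 (hU n m)
  choose V hV hVU using h1
  obtain ⟨g, hg⟩ := h (fun n m => ⋃ k ∈ Finset.range (m + 1), V n k)
    (fun n m => isOpen_biUnion fun k _ => hV n k)
    (fun n a b hab => biUnion_subset_biUnion_left (by
          intro k hk
          have hk' : k ∈ Finset.range (a + 1) := hk
          show k ∈ Finset.range (b + 1)
          rw [Finset.mem_range] at *
          omega))
    (by
      rintro n _ ⟨x, hx, rfl⟩
      obtain ⟨m, hm'⟩ := hc n x hx
      rw [← hVU] at hm'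
      exact ⟨m, mem_iUnion₂.2 ⟨m, Finset.mem_range.2 (by omega), hm'⟩⟩)
  refine ⟨g, fun x hx => ?_⟩
  obtain ⟨n, hn⟩ := hg _ ⟨x, hx, rfl⟩
  obtain ⟨k, hk, hxk⟩ := mem_iUnion₂.1 hn
  have h2 : x ∈ U n k := by rw [← hVU]; exact hxk
  exact ⟨n, hm n (by rw [Finset.mem_range] at hk; omega) h2⟩

theorem Mg.iUnion {ι : Type} [Countable ι] {X : ι → Set α} (h : ∀ i, Mg (X i)) :
    Mg (⋃ i, X i) := by
  intro U hU hm hc
  rcases isEmpty_or_nonempty ι with he | hne
  · refine ⟨fun _ => 0, fun x hx => ?_⟩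
    obtain ⟨i, _⟩ := mem_iUnion.1 hx
    exact (he.false i).elim
  · obtain ⟨e, he⟩ := exists_surjective_nat ι
    have h1 : ∀ i, ∃ g : ℕ → ℕ, Monotone g ∧ ∀ x ∈ X i, ∃ᶠ n in atTop, x ∈ U n (g n) :=
      fun i => (h i).freq U hU hm (fun n x hx => hc n x (mem_iUnion.2 ⟨i, hx⟩))
    choose g _ hg using h1
    refine ⟨fun n => (Finset.range (n + 1)).sup fun j => g (e j) n, fun x hx => ?_⟩
    obtain ⟨i, hi⟩ := mem_iUnion.1 hx
    obtain ⟨j, rfl⟩ := he i
    obtain ⟨n, hn1, hn2⟩ := frequently_atTop.1 (hg _ x hi) j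
    exact ⟨n, hm n (Finset.le_sup (f := fun j => g (e j) n)
      (Finset.mem_range.2 (by omega))) hn2⟩

theorem Mg.union {X Y : Set α} (hX : Mg X) (hY : Mg Y) : Mg (X ∪ Y) := by
  have : X ∪ Y = ⋃ b : Bool, cond b X Y := by
    rw [union_eq_iUnion]
  rw [this]
  apply Mg.iUnion
  intro b
  cases b <;> assumption

/-- Preimages of Menger sets under continuous maps of compact spaces are Menger. -/
theorem Mg.preimage_compact [CompactSpace α] [T2Space β] {f : α → β} (hf : Continuous f)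
    {X : Set β} (h : Mg X) : Mg (f ⁻¹' X) := by
  intro U hU hm hc
  have hcl : ∀ C : Set α, IsClosed C → IsClosed (f '' C) := fun C hC => hf.isClosedMap C hC
  obtain ⟨g, hg⟩ := h (fun n m => (f '' (U n m)ᶜ)ᶜ)
    (fun n m => (hcl _ (hU n m).isClosed_compl).isOpen_compl)
    (fun n a b hab => compl_subset_compl.2 (image_mono (compl_subset_compl.2 (hm n hab))))
    (by
      intro n y hy
      have hK : IsCompact (f ⁻¹' {y}) := (isClosed_singleton.preimage hf).isCompact
      obtain ⟨m, hm'⟩ := hK.elim_directed_cover (U n) (hU n) (by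
        intro x hx
        have hx' : f x = y := hx
        exact mem_iUnion.2 (hc n x (by show f x ∈ X; rw [hx']; exact hy)))
        (Monotone.directed_le (hm n))
      refine ⟨m, ?_⟩
      rintro ⟨x, hx, hxy⟩
      exact hx (hm' hxy))
  refine ⟨g, fun x hx => ?_⟩
  obtain ⟨n, hn⟩ := hg (f x) hx
  refine ⟨n, ?_⟩
  by_contra hcon
  exact hn ⟨x, hcon, rfl⟩

/-- The product of a Menger set and a compact set is Menger. -/
theorem Mg.prod_compact {X : Set α} {K : Set β} (h : Mg X) (hK : IsCompact K) :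
    Mg (X ×ˢ K) := by
  intro U hU hm hc
  obtain ⟨g, hg⟩ := h (fun n m => ⋃₀ {V : Set α | IsOpen V ∧ V ×ˢ K ⊆ U n m})
    (fun n m => isOpen_sUnion fun V hV => hV.1)
    (fun n a b hab => sUnion_mono fun V hV => ⟨hV.1, hV.2.trans (hm n hab)⟩)
    (by
      intro n x hx
      have h1 : IsCompact ({x} ×ˢ K) := isCompact_singleton.prod hK
      obtain ⟨m, hm'⟩ := h1.elim_directed_cover (U n) (hU n) (by
        rintro ⟨x', y⟩ ⟨hx', hy⟩
        have hx' : x' = x := hx'
        subst hx'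
        exact mem_iUnion.2 (hc n _ ⟨hx, hy⟩)) (Monotone.directed_le (hm n))
      obtain ⟨u, v, hu, hv, hxu, hKv, huv⟩ :=
        generalized_tube_lemma isCompact_singleton hK (hU n m) hm'
      exact ⟨m, u, ⟨hu, (prod_mono_right hKv).trans huv⟩, hxu rfl⟩)
  refine ⟨g, ?_⟩
  rintro ⟨x, y⟩ ⟨hx, hy⟩
  obtain ⟨n, V, hV, hxV⟩ := hg x hx
  exact ⟨n, hV.2 ⟨hxV, hy⟩⟩

theorem Mg.prod_sigmaCompact {X : Set α} {K : Set β} (h : Mg X) (hK : IsSigmaCompact K) :
    Mg (X ×ˢ K) := by
  obtain ⟨C, hC, hCK⟩ := hK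
  have : X ×ˢ K = ⋃ n, X ×ˢ C n := by rw [← hCK, prod_iUnion]
  rw [this]
  exact Mg.iUnion fun n => h.prod_compact (hC n)

theorem Mg.inter_sigmaCompact [T2Space α] {X K : Set α} (h : Mg X) (hK : IsSigmaCompact K) :
    Mg (X ∩ K) := by
  obtain ⟨C, hC, hCK⟩ := hK
  have : X ∩ K = ⋃ n, X ∩ C n := by rw [← hCK, inter_iUnion]
  rw [this]
  exact Mg.iUnion fun n => h.inter_closed (hC n).isClosed

/-- The intrinsic product is the set-theoretic product. -/
theorem mengerSp_prod_iff [SecondCountableTopology α] [SecondCountableTopology β]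
    (X : Set α) (Y : Set β) : MengerSp (X × Y) ↔ Mg (X ×ˢ Y) := by
  rw [← mengerSp_iff]
  have hom : (X ×ˢ Y : Set (α × β)) ≃ₜ X × Y := Homeomorph.Set.prod X Y
  have aux : ∀ {P Q : Type} [TopologicalSpace P] [TopologicalSpace Q] (e : P ≃ₜ Q),
      MengerSp P → MengerSp Q := by
    intro P Q _ _ e h U hU
    obtain ⟨F, hF, hF2⟩ := h (fun n => (fun u => e ⁻¹' u) '' U n) (by
      intro n
      constructor
      · rintro _ ⟨u, hu, rfl⟩
        exact ((hU n).1 u hu).preimage e.continuous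
      · rw [eq_univ_iff_forall]
        intro x
        have : e x ∈ ⋃₀ U n := by rw [(hU n).2]; trivial
        obtain ⟨u, hu, hxu⟩ := this
        exact ⟨_, ⟨u, hu, rfl⟩, hxu⟩)
    refine ⟨fun n => (fun v => e.symm ⁻¹' v) '' F n, fun n => ⟨?_, (hF n).2.image _⟩, ?_⟩
    · rintro _ ⟨v, hv, rfl⟩
      obtain ⟨u, hu, rfl⟩ := (hF n).1 hv
      have : e.symm ⁻¹' (e ⁻¹' u) = u := by
        ext y; simp
      simp only at this ⊢
      rw [this]
      exact hu
    · rw [eq_univ_iff_forall]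
      intro y
      have : e.symm y ∈ ⋃ n, ⋃₀ F n := by rw [hF2]; trivial
      obtain ⟨n, hn⟩ := mem_iUnion.1 this
      obtain ⟨v, hv, hyv⟩ := hn
      exact mem_iUnion.2 ⟨n, _, ⟨v, hv, rfl⟩, hyv⟩
  exact ⟨aux hom.symm, aux hom⟩

end

end Pool.Agent.Helper914M
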