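import Pool.Agent.Helper914_Men.Product

/-!
The case `𝔡 ≤ 𝔯`: sets of reals concentrated on countable sets whose product is not Menger.
-/

namespace Pool.Agent.Helper914M

open Set Filter Cardinal Topology

theorem Mg.of_conc {α : Type} [TopologicalSpace α] {Q Y : Set α} (hQ : Mg Q) (hQY : Q ⊆ Y)
    (hY : ∀ V : Set α, IsOpen V → Q ⊆ V → Mg (Y \ V)) : Mg Y := by
  intro U hU hm hc
  obtain ⟨g0, hg0⟩ := hQ (fun n => U (2 * n)) (fun n m => hU _ _)
    (fun n => hm _) (fun n x hx => hc _ x (hQY hx))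
  let V : Set α := ⋃ n, U (2 * n) (g0 n)
  obtain ⟨g1, hg1⟩ := hY V (isOpen_iUnion fun n => hU _ _) (fun q hq => mem_iUnion.2 (hg0 q hq))
    (fun n => U (2 * n + 1)) (fun n m => hU _ _) (fun n => hm _) (fun n x hx => hc _ x hx.1)
  refine ⟨fun n => if n % 2 = 0 then g0 (n / 2) else g1 (n / 2), ?_⟩
  intro x hx
  by_cases hxV : x ∈ V
  · obtain ⟨n, hn⟩ := mem_iUnion.1 hxV
    refine ⟨2 * n, ?_⟩
    have h1 : (2 * n) % 2 = 0 := by omega
    have h2 : (2 * n) / 2 = n := by omega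
    simp only [h1, if_true, h2]
    exact hn
  · obtain ⟨n, hn⟩ := hg1 x ⟨hx, hxV⟩
    refine ⟨2 * n + 1, ?_⟩
    have h1 : (2 * n + 1) % 2 ≠ 0 := by omega
    have h2 : (2 * n + 1) / 2 = n := by omega
    simp only [h1, if_false, h2]
    exact hn

/-- A fast growing function which is not caught by a small family. -/
theorem exists_fast {ι : Type} (hι : #ι < dN) (F : ι → ℕ → ℕ) (hF : ∀ i, Monotone (F i))
    (f : ℕ → ℕ) : ∃ h : ℕ → ℕ, StrictMono h ∧ (∀ k, ∀ j ≤ h k, f j < h (k + 1)) ∧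
      ∀ i, ∃ᶠ k in atTop, F i (h k) < h (k + 1) := by
  let G : ι × ℕ → ℕ → ℕ := fun p n => (fun x => max (F p.1 x) x)^[n] p.2
  have hGm : ∀ p, Monotone (G p) := by
    intro p
    apply monotone_nat_of_le_succ
    intro n
    show (fun x => max (F p.1 x) x)^[n] p.2 ≤ (fun x => max (F p.1 x) x)^[n + 1] p.2
    rw [Function.iterate_succ_apply']
    exact le_max_right _ _
  have hGs : ∀ p n, F p.1 (G p n) ≤ G p (n + 1) := by
    intro p n
    show F p.1 ((fun x => max (F p.1 x) x)^[n] p.2) ≤ (fun x => max (F p.1 x) x)^[n + 1] p.2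
    rw [Function.iterate_succ_apply']
    exact le_max_left _ _
  have hc : #(ι × ℕ) < dN := by
    rw [mk_prod, lift_id, lift_id]
    exact mul_lt_of_lt aleph0_lt_dN.le hι (by rw [mk_nat]; exact aleph0_lt_dN)
  obtain ⟨h0, _, hh0⟩ := exists_notDom_ind hc G
  let h : ℕ → ℕ := fun n => Nat.rec (h0 0)
    (fun k r => max (h0 (k + 1)) (max ((Finset.range (r + 1)).sup f + 1) (r + 1))) n
  have hs : ∀ k, h (k + 1) = max (h0 (k + 1)) (max ((Finset.range (h k + 1)).sup f + 1)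
    (h k + 1)) := fun k => rfl
  have hle : ∀ n, h0 n ≤ h n := by
    intro n
    cases n with
    | zero => exact le_rfl
    | succ k => rw [hs]; exact le_max_left _ _
  refine ⟨h, ?_, ?_, ?_⟩
  · apply strictMono_nat_of_lt_succ
    intro k
    rw [hs]
    exact lt_of_lt_of_le (Nat.lt_succ_self _) ((le_max_right _ _).trans (le_max_right _ _))
  · intro k j hj
    rw [hs]
    have h1 : f j ≤ (Finset.range (h k + 1)).sup f :=
      Finset.le_sup (f := f) (Finset.mem_range.2 (by omega))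
    exact lt_of_le_of_lt h1 (lt_of_lt_of_le (Nat.lt_succ_self _)
      ((le_max_left _ _).trans (le_max_right _ _)))
  · intro i
    by_contra hcon
    rw [not_frequently] at hcon
    obtain ⟨K, hK⟩ := eventually_atTop.1 hcon
    have h1 : ∀ n, h (K + n) ≤ G (i, h K) n := by
      intro n
      induction n with
      | zero => exact le_rfl
      | succ n ih =>
        have h2 := hK (K + n) (by omega)
        rw [not_lt] at h2
        exact h2.trans ((hF i ih).trans (hGs (i, h K) n))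
    obtain ⟨n, hn, hn'⟩ := frequently_atTop.1 (hh0 (i, h K)) K
    have h3 := h1 (n - K)
    have h4 : K + (n - K) = n := by omega
    rw [h4] at h3
    have h5 := hGm (i, h K) (show n - K ≤ n by omega)
    have h6 := hle n
    omega

theorem exists_split (hdr : dN ≤ rN) {ι : Type} (hι : #ι < dN) (I : ι → Set ℕ)
    (hI : ∀ i, (I i).Infinite) : ∃ S : Set ℕ, ∀ i, Splits S (I i) := by
  by_contra hcon
  refine (not_le.2 (lt_of_le_of_lt mk_range_le (hι.trans_le hdr))) (csInf_le' ⟨range I, rfl, ?_, ?_⟩)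
  · rintro _ ⟨i, rfl⟩
    exact hI i
  · rintro ⟨S, _, hS⟩
    exact hcon ⟨S, fun i => hS _ ⟨i, rfl⟩⟩

/-- the interval of `h` containing `n` -/
theorem exists_interval {h : ℕ → ℕ} (hh : StrictMono h) {n : ℕ} (hn : h 0 ≤ n) :
    ∃ k, h k ≤ n ∧ n < h (k + 1) := by
  have h1 : ∃ k, n < h (k + 1) := ⟨n, lt_of_lt_of_le (Nat.lt_succ_self n) hh.le_apply⟩
  classical
  refine ⟨Nat.find h1, ?_, Nat.find_spec h1⟩
  rcases Nat.eq_zero_or_pos (Nat.find h1) with h2 | h2
  · rw [h2]; exact hn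
  · have h3 := Nat.find_min h1 (show Nat.find h1 - 1 < Nat.find h1 by omega)
    have h4 : Nat.find h1 - 1 + 1 = Nat.find h1 := by omega
    rw [h4] at h3
    omega

theorem interval_unique {h : ℕ → ℕ} (hh : StrictMono h) {n k l : ℕ} (hk : h k ≤ n)
    (hk' : n < h (k + 1)) (hl : h l ≤ n) (hl' : n < h (l + 1)) : k = l := by
  by_contra hcon
  rcases Nat.lt_or_gt_of_ne hcon with h1 | h1
  · have := hh.monotone (show k + 1 ≤ l by omega)
    omega
  · have := hh.monotone (show l + 1 ≤ k by omega)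
    omega

/-- The union of the intervals of `h` with indices in `S`. -/
def blocks (h : ℕ → ℕ) (S : Set ℕ) : Set ℕ := {n | ∃ k ∈ S, h k ≤ n ∧ n < h (k + 1)}

theorem mem_blocks {h : ℕ → ℕ} (hh : StrictMono h) {S : Set ℕ} {n k : ℕ} (hk : h k ≤ n)
    (hk' : n < h (k + 1)) : n ∈ blocks h S ↔ k ∈ S := by
  constructor
  · rintro ⟨l, hl, h1, h2⟩
    rwa [interval_unique hh hk hk' h1 h2]
  · intro hS
    exact ⟨k, hS, hk, hk'⟩

/-- Three alternations of `a` between `n` and `m`. -/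
def Alt (a : Set ℕ) (n m : ℕ) : Prop := ∃ i j k, n ≤ i ∧ i < j ∧ j < k ∧ k ≤ m ∧
  ((i ∈ a ∧ j ∉ a ∧ k ∈ a) ∨ (i ∉ a ∧ j ∈ a ∧ k ∉ a))

theorem exists_bi (hdr : dN ≤ rN) {ι : Type} (hι : #ι < dN) (F : ι → ℕ → ℕ)
    (hF : ∀ i, Monotone (F i)) (f : ℕ → ℕ) : ∃ a : Set ℕ, a.Infinite ∧ aᶜ.Infinite ∧
      (∀ i, ∃ᶠ n in atTop, ∀ j, n ≤ j → j < F i n → j ∉ a) ∧
      (∀ i, ∃ᶠ n in atTop, ∀ j, n ≤ j → j < F i n → j ∈ a) ∧
      ∀ n m, Alt a n m → f n ≤ m := by
  classical
  let F' : Option ι → ℕ → ℕ := fun o => o.elim id F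
  have hF' : ∀ i, Monotone (F' i) := by
    rintro (_ | i)
    · exact monotone_id
    · exact hF i
  have hι' : #(Option ι) < dN := by
    rw [mk_option]
    exact add_lt_of_lt aleph0_lt_dN.le hι (one_lt_aleph0.trans aleph0_lt_dN)
  obtain ⟨h, hh, hf, hF2⟩ := exists_fast hι' F' hF' f
  obtain ⟨S, hS⟩ := exists_split hdr hι' (fun i => {k | F' i (h k) < h (k + 1)})
    (fun i => Nat.frequently_atTop_iff_infinite.1 (hF2 i))
  have hid : ∀ k, k ≤ h k := fun k => hh.le_apply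
  refine ⟨blocks h S, ?_, ?_, ?_, ?_, ?_⟩
  · have h1 := (hS none).1
    have h2 : {n | n ∈ blocks h S}.Infinite := by
      rw [← Nat.frequently_atTop_iff_infinite, frequently_atTop]
      intro K
      obtain ⟨k, hk, hkK⟩ := h1.exists_gt K
      exact ⟨h k, hkK.le.trans (hid k), (mem_blocks hh le_rfl (hh (Nat.lt_succ_self k))).2 hk.2⟩
    exact h2
  · have h1 := (hS none).2
    have h2 : {n | n ∉ blocks h S}.Infinite := by
      rw [← Nat.frequently_atTop_iff_infinite, frequently_atTop]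
      intro K
      obtain ⟨k, hk, hkK⟩ := h1.exists_gt K
      exact ⟨h k, hkK.le.trans (hid k), fun hcon =>
        hk.2 ((mem_blocks hh le_rfl (hh (Nat.lt_succ_self k))).1 hcon)⟩
    exact h2
  · intro i
    rw [frequently_atTop]
    intro K
    obtain ⟨k, hk, hkK⟩ := (hS (some i)).2.exists_gt K
    refine ⟨h k, hkK.le.trans (hid k), fun j hj hj' hcon => ?_⟩
    have h1 : F i (h k) < h (k + 1) := hk.1
    exact hk.2 ((mem_blocks hh hj (hj'.trans h1)).1 hcon)
  · intro i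
    rw [frequently_atTop]
    intro K
    obtain ⟨k, hk, hkK⟩ := (hS (some i)).1.exists_gt K
    refine ⟨h k, hkK.le.trans (hid k), fun j hj hj' => ?_⟩
    have h1 : F i (h k) < h (k + 1) := hk.1
    exact (mem_blocks hh hj (hj'.trans h1)).2 hk.2
  · rintro n m ⟨i, j, k, hi, hij, hjk, hkm, halt⟩
    -- there are two values of `h` in `(n, m]`
    have key : ∀ i j, i < j → ¬ (i ∈ blocks h S ↔ j ∈ blocks h S) →
        ∃ l, i < h l ∧ h l ≤ j := by
      intro i j hij hne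
      by_contra hcon
      push Not at hcon
      apply hne
      by_cases h0 : h 0 ≤ i
      · obtain ⟨k, hk, hk'⟩ := exists_interval hh h0
        have h1 : j < h (k + 1) := hcon (k + 1) hk'
        rw [mem_blocks hh hk hk', mem_blocks hh (hk.trans hij.le) h1]
      · have h1 : j < h 0 := hcon 0 (by omega)
        constructor
        · rintro ⟨k, _, hk, _⟩
          have := hh.monotone (Nat.zero_le k)
          omega
        · rintro ⟨k, _, hk, _⟩
          have := hh.monotone (Nat.zero_le k)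
          omega
    obtain ⟨l, hl1, hl2⟩ := key i j hij (by tauto)
    obtain ⟨l', hl1', hl2'⟩ := key j k hjk (by tauto)
    have h1 : l < l' := hh.lt_iff_lt.1 (by omega)
    have h2 := hh.monotone (show l + 1 ≤ l' by omega)
    have h3 := hf l n (by omega)
    omega

/-- The version with an ultrafilter. -/
theorem exists_ultra (hdr : dN ≤ rN) {ι : Type} (hι : #ι < dN) (F : ι → ℕ → ℕ)
    (hF : ∀ i, Monotone (F i)) (f : ℕ → ℕ) (𝒱 : Ultrafilter ℕ)
    (hV : ∀ k, {n | k ≤ n} ∈ 𝒱) : ∃ b : Set ℕ,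
      (∀ i, ∃ᶠ n in atTop, ∀ j, n ≤ j → j < F i n → j ∉ b) ∧ bᶜ.Infinite ∧
      {n | ∀ j, n ≤ j → j ≤ f n → j ∈ b} ∈ 𝒱 := by
  classical
  let F' : Option ι → ℕ → ℕ := fun o => o.elim id F
  have hF' : ∀ i, Monotone (F' i) := by
    rintro (_ | i)
    · exact monotone_id
    · exact hF i
  have hι' : #(Option ι) < dN := by
    rw [mk_option]
    exact add_lt_of_lt aleph0_lt_dN.le hι (one_lt_aleph0.trans aleph0_lt_dN)
  obtain ⟨h, hh, hf, hF2⟩ := exists_fast hι' F' hF' f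
  have hid : ∀ k, k ≤ h k := fun k => hh.le_apply
  -- the parity
  obtain ⟨p, hp⟩ : ∃ p : ℕ, blocks h {k | ∃ l, k = 2 * l + p} ∈ 𝒱 := by
    by_cases h0 : blocks h {k | ∃ l, k = 2 * l + 0} ∈ 𝒱
    · exact ⟨0, h0⟩
    · refine ⟨1, ?_⟩
      rw [← Ultrafilter.compl_mem_iff_notMem] at h0
      filter_upwards [h0, hV (h 0)] with n hn hn'
      obtain ⟨k, hk, hk'⟩ := exists_interval hh hn'
      refine ⟨k, ?_, hk, hk'⟩
      rcases Nat.even_or_odd' k with ⟨l, rfl | rfl⟩
      · exact absurd ⟨_, ⟨l, rfl⟩, hk, hk'⟩ hn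
      · exact ⟨l, rfl⟩
  let h' : ℕ → ℕ := fun l => h (2 * l + p)
  have hh' : StrictMono h' := fun a b hab => hh (by omega)
  have hid' : ∀ k, k ≤ h' k := fun k => hh'.le_apply
  have hF3 : ∀ i, {k | F' i (h' k) < h' (k + 1)}.Infinite := by
    intro i
    rw [← Nat.frequently_atTop_iff_infinite, frequently_atTop]
    intro K
    obtain ⟨k, hk, hk'⟩ := frequently_atTop.1 (hF2 i) (2 * K + p)
    refine ⟨(k - p) / 2, by omega, ?_⟩
    have h1 : h' ((k - p) / 2) ≤ h k := hh.monotone (by omega)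
    have h2 : h (k + 1) ≤ h' ((k - p) / 2 + 1) := hh.monotone (by omega)
    exact lt_of_le_of_lt (hF' i h1) (lt_of_lt_of_le hk' h2)
  obtain ⟨S0, hS0⟩ := exists_split hdr hι' (fun i => {k | F' i (h' k) < h' (k + 1)}) hF3
  -- choose the side
  obtain ⟨S, hS, hSV⟩ : ∃ S : Set ℕ, (∀ i, Splits S {k | F' i (h' k) < h' (k + 1)}) ∧
      blocks h {k | ∃ l ∈ S, k = 2 * l + p} ∈ 𝒱 := by
    by_cases h0 : blocks h {k | ∃ l ∈ S0, k = 2 * l + p} ∈ 𝒱
    · exact ⟨S0, hS0, h0⟩
    · refine ⟨S0ᶜ, fun i => ⟨?_, ?_⟩, ?_⟩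
      · exact (hS0 i).2
      · refine (hS0 i).1.mono ?_
        rintro x ⟨hx1, hx2⟩
        exact ⟨hx1, fun h => h hx2⟩
      · rw [← Ultrafilter.compl_mem_iff_notMem] at h0
        filter_upwards [h0, hp] with n hn hn'
        obtain ⟨k, ⟨l, rfl⟩, hk, hk'⟩ := hn'
        refine ⟨_, ⟨l, fun hl => hn ⟨_, ⟨l, hl, rfl⟩, hk, hk'⟩, rfl⟩, hk, hk'⟩
  refine ⟨blocks h' S, ?_, ?_, ?_⟩
  · intro i
    rw [frequently_atTop]
    intro K
    obtain ⟨k, hk, hkK⟩ := (hS (some i)).2.exists_gt K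
    refine ⟨h' k, hkK.le.trans (hid' k), fun j hj hj' hcon => ?_⟩
    have h1 : F i (h' k) < h' (k + 1) := hk.1
    exact hk.2 ((mem_blocks hh' hj (hj'.trans h1)).1 hcon)
  · have h1 := (hS none).2
    have h2 : {n | n ∉ blocks h' S}.Infinite := by
      rw [← Nat.frequently_atTop_iff_infinite, frequently_atTop]
      intro K
      obtain ⟨k, hk, hkK⟩ := h1.exists_gt K
      exact ⟨h' k, hkK.le.trans (hid' k), fun hcon =>
        hk.2 ((mem_blocks hh' le_rfl (hh' (Nat.lt_succ_self k))).1 hcon)⟩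
    exact h2
  · filter_upwards [hSV] with n hn j hj hj'
    obtain ⟨k, ⟨l, hl, rfl⟩, hk, hk'⟩ := hn
    have h1 : h' l ≤ j := hk.trans hj
    have h2 : j < h' (l + 1) := by
      have h3 := hf (2 * l + p + 1) n hk'.le
      have h4 : h' (l + 1) = h (2 * l + p + 1 + 1) := by
        show h (2 * (l + 1) + p) = _
        congr 1
        omega
      omega
    exact (mem_blocks hh' h1 h2).2 hl

end Pool.Agent.Helper914M
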