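import Pool.Agent.Helper914_Men.Basic

/-!
The cardinals `𝔡`, `𝔯`, `add(Menger)`; hereditarily reaping families and the filter of sets which
meet all their members.
-/

namespace Pool.Agent.Helper914M

open Set Filter Cardinal Topology

theorem dN_mem : ∃ D : Set (ℕ → ℕ), #D = dN ∧ ∀ g : ℕ → ℕ, ∃ f ∈ D, ∀ᶠ n in atTop, g n ≤ f n :=
  csInf_mem (s := {κ | ∃ D : Set (ℕ → ℕ), #D = κ ∧ ∀ g : ℕ → ℕ, ∃ f ∈ D,
    ∀ᶠ n in atTop, g n ≤ f n}) ⟨_, Set.univ, rfl, fun g => ⟨g, trivial, Eventually.of_forall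
      fun _ => le_rfl⟩⟩

theorem exists_notDom {D : Set (ℕ → ℕ)} (h : #D < dN) :
    ∃ g : ℕ → ℕ, ∀ f ∈ D, ∃ᶠ n in atTop, f n < g n := by
  by_contra hcon
  push Not at hcon
  refine (not_le.2 h) (csInf_le' ⟨D, rfl, fun g => ?_⟩)
  obtain ⟨f, hf, hfg⟩ := hcon g
  exact ⟨f, hf, by simpa using hfg⟩

/-- Indexed form. -/
theorem exists_notDom_ind {ι : Type} (h : #ι < dN) (F : ι → ℕ → ℕ) :
    ∃ g : ℕ → ℕ, Monotone g ∧ ∀ i, ∃ᶠ n in atTop, F i n < g n := by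
  obtain ⟨g, hg⟩ := exists_notDom (D := range F) (lt_of_le_of_lt mk_range_le h)
  refine ⟨fun n => (Finset.range (n + 1)).sup g, ?_, fun i => ?_⟩
  · intro a b hab
    exact Finset.sup_mono (Finset.range_mono (by omega))
  · refine (hg _ ⟨i, rfl⟩).mono fun n hn => ?_
    exact lt_of_lt_of_le hn (Finset.le_sup (f := g) (Finset.mem_range.2 (Nat.lt_succ_self n)))

theorem aleph0_lt_dN : ℵ₀ < dN := by
  obtain ⟨D, hD, hdom⟩ := dN_mem
  rw [← hD, ← not_le]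
  intro hc0
  have hc : D.Countable := le_aleph0_iff_set_countable.1 hc0
  have hne : D.Nonempty := by
    obtain ⟨f, hf, _⟩ := hdom 0
    exact ⟨f, hf⟩
  obtain ⟨t, ht⟩ := hc.exists_eq_range hne
  obtain ⟨f, hf, hfg⟩ := hdom (fun n => ((Finset.range (n + 1)).sup fun i => t i n) + 1)
  rw [ht] at hf
  obtain ⟨i, rfl⟩ := hf
  obtain ⟨n, hn, hn'⟩ := (hfg.and (eventually_ge_atTop i)).exists
  have := Finset.le_sup (f := fun i => t i n) (Finset.mem_range.2 (show i < n + 1 by omega))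
  omega

/-- A hereditarily reaping family. -/
structure HR (A : Set (Set ℕ)) : Prop where
  ne : A.Nonempty
  inf : ∀ B ∈ A, B.Infinite
  reap : ∀ B ∈ A, ∀ L : Set ℕ, ∃ C ∈ A, C ⊆ B ∧ ((C \ L).Finite ∨ (C ∩ L).Finite)

/-- `L` meets all the members of the family in infinite sets. -/
def Pos (A : Set (Set ℕ)) (L : Set ℕ) : Prop := ∀ B ∈ A, (B ∩ L).Infinite

theorem Pos.mono {A : Set (Set ℕ)} {L L' : Set ℕ} (h : Pos A L) (hL : L ⊆ L') : Pos A L' :=
  fun B hB => (h B hB).mono (inter_subset_inter_right _ hL)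

theorem Pos.almost {A : Set (Set ℕ)} (hA : HR A) {L : Set ℕ} (h : Pos A L) {B : Set ℕ}
    (hB : B ∈ A) : ∃ C ∈ A, C ⊆ B ∧ (C \ L).Finite := by
  obtain ⟨C, hC, hCB, h1 | h1⟩ := hA.reap B hB L
  · exact ⟨C, hC, hCB, h1⟩
  · exact absurd h1 (h C hC)

theorem Pos.inter {A : Set (Set ℕ)} (hA : HR A) {L L' : Set ℕ} (h : Pos A L) (h' : Pos A L') :
    Pos A (L ∩ L') := by
  intro B hB
  obtain ⟨C, hC, hCB, h1⟩ := h.almost hA hB
  have h2 : ((C ∩ L') \ (C \ L)).Infinite := (h' C hC).sdiff h1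
  refine h2.mono ?_
  rintro x ⟨⟨hx1, hx2⟩, hx3⟩
  refine ⟨hCB hx1, ?_, hx2⟩
  by_contra hcon
  exact hx3 ⟨hx1, hcon⟩

theorem Pos.of_eventually {A : Set (Set ℕ)} (hA : HR A) {p : ℕ → Prop}
    (h : ∀ᶠ n in atTop, p n) : Pos A {n | p n} := by
  intro B hB
  obtain ⟨k, hk⟩ := eventually_atTop.1 h
  refine ((hA.inf B hB).sdiff (finite_Iio k)).mono ?_
  rintro x ⟨hx1, hx2⟩
  exact ⟨hx1, hk x (not_lt.1 hx2)⟩

theorem Pos.nonempty {A : Set (Set ℕ)} (hA : HR A) {L : Set ℕ} (h : Pos A L) : L.Nonempty := by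
  obtain ⟨B, hB⟩ := hA.ne
  exact (h B hB).nonempty.mono inter_subset_right

/-- A function is bounded by `h` on a positive set if it is bounded at infinitely many points of
every member of the family; a small family of functions has a common bound. -/
theorem exists_Pos_bound {A : Set (Set ℕ)} (hA : HR A) (hAd : #A < dN) {ι : Type}
    (hι : #ι < dN) (g : ι → ℕ → ℕ) :
    ∃ h : ℕ → ℕ, Monotone h ∧ ∀ i, Pos A {n | g i n ≤ h n} := by
  classical
  have h1 : ∀ (B : A) (n : ℕ), ∃ m ∈ (B : Set ℕ), n ≤ m := fun B n => by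
    obtain ⟨m, hm, hnm⟩ := (hA.inf B B.2).exists_gt n
    exact ⟨m, hm, hnm.le⟩
  choose nx hnx1 hnx2 using h1
  have h2 : #(ι × A) < dN := by
    rw [mk_prod, lift_id, lift_id]
    exact mul_lt_of_lt aleph0_lt_dN.le hι hAd
  obtain ⟨h, hm, hh⟩ := exists_notDom_ind h2 (fun p n => g p.1 (nx p.2 n))
  refine ⟨h, hm, fun i B hB => ?_⟩
  have h3 : {n | n ∈ B ∩ {n | g i n ≤ h n}}.Infinite := by
    rw [← Nat.frequently_atTop_iff_infinite, frequently_atTop]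
    intro k
    obtain ⟨n, hn, hn'⟩ := frequently_atTop.1 (hh (i, ⟨B, hB⟩)) k
    refine ⟨nx ⟨B, hB⟩ n, hn.trans (hnx2 _ _), hnx1 ⟨B, hB⟩ n, ?_⟩
    exact hn'.le.trans (hm (hnx2 _ _))
  exact h3

/-- If `𝔯 < 𝔡` there is a hereditarily reaping family of size less than `𝔡`. -/
theorem exists_HR (h : rN < dN) : ∃ A : Set (Set ℕ), HR A ∧ #A < dN := by
  classical
  obtain ⟨R, hR, hinf, hreap⟩ : ∃ R : Set (Set ℕ), #R = rN ∧ (∀ B ∈ R, B.Infinite) ∧
      ¬ ∃ A : Set ℕ, A.Infinite ∧ ∀ B ∈ R, Splits A B := by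
    refine csInf_mem (s := {κ | ∃ R : Set (Set ℕ), #R = κ ∧ (∀ B ∈ R, B.Infinite) ∧
      ¬ ∃ A : Set ℕ, A.Infinite ∧ ∀ B ∈ R, Splits A B}) ⟨_, {B | B.Infinite}, rfl,
        fun B hB => hB, ?_⟩
    rintro ⟨A, hA, hs⟩
    have := (hs A hA).2
    simp at this
  -- an unsplit family for all sets, finite sets included
  have hre : ∀ L : Set ℕ, ∃ B ∈ R, (B \ L).Finite ∨ (B ∩ L).Finite := by
    intro L
    have hne : ∃ B, B ∈ R := by
      by_contra hcon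
      push Not at hcon
      exact hreap ⟨Set.univ, infinite_univ, fun B hB => absurd hB (hcon B)⟩
    by_cases hL : L.Infinite
    · by_contra hcon
      push Not at hcon
      exact hreap ⟨L, hL, fun B hB => ⟨(hcon B hB).2, (hcon B hB).1⟩⟩
    · obtain ⟨B, hB⟩ := hne
      exact ⟨B, hB, Or.inr ((not_infinite.1 hL).subset inter_subset_right)⟩
  let en : Set ℕ → ℕ → ℕ := fun A => Nat.nth (· ∈ A)
  have hen1 : ∀ A : Set ℕ, A.Infinite → Function.Injective (en A) := fun A hA =>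
    Nat.nth_injective hA
  have hen2 : ∀ A : Set ℕ, A.Infinite → ∀ n, en A n ∈ A := fun A hA n =>
    Nat.nth_mem_of_infinite hA n
  let g : List R → Set ℕ := fun l => l.rec Set.univ (fun B _ r => en r '' (B : Set ℕ))
  have hg0 : g [] = Set.univ := rfl
  have hgc : ∀ B l, g (B :: l) = en (g l) '' (B : Set ℕ) := fun B l => rfl
  have hginf : ∀ l, (g l).Infinite := by
    intro l
    induction l with
    | nil => exact infinite_univ
    | cons B l ih =>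
      rw [hgc]
      exact (hinf B B.2).image (hen1 _ ih).injOn
  refine ⟨range g, ⟨⟨_, [], rfl⟩, ?_, ?_⟩, ?_⟩
  · rintro _ ⟨l, rfl⟩
    exact hginf l
  · rintro _ ⟨l, rfl⟩ L
    obtain ⟨B, hB, hBL⟩ := hre (en (g l) ⁻¹' L)
    refine ⟨g (⟨B, hB⟩ :: l), ⟨(⟨B, hB⟩ :: l), rfl⟩, ?_, ?_⟩
    · rw [hgc]
      rintro _ ⟨k, _, rfl⟩
      exact hen2 _ (hginf l) k
    · rw [hgc]
      rcases hBL with h1 | h1
      · left
        refine (h1.image (en (g l))).subset ?_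
        rintro _ ⟨⟨k, hk, rfl⟩, hk2⟩
        exact ⟨k, ⟨hk, hk2⟩, rfl⟩
      · right
        refine (h1.image (en (g l))).subset ?_
        rintro _ ⟨⟨k, hk, rfl⟩, hk2⟩
        exact ⟨k, ⟨hk, hk2⟩, rfl⟩
  · refine lt_of_le_of_lt mk_range_le (lt_of_le_of_lt (mk_list_le_max _) ?_)
    rw [hR]
    exact max_lt aleph0_lt_dN h

/-- A reaping family of size less than `𝔡`. -/
theorem rN_le_of_HR {A : Set (Set ℕ)} (hA : HR A) : rN ≤ #A := by
  refine csInf_le' ⟨A, rfl, hA.inf, ?_⟩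
  rintro ⟨S, hS, hs⟩
  obtain ⟨B, hB⟩ := hA.ne
  obtain ⟨C, hC, _, h1 | h1⟩ := hA.reap B hB S
  · exact (hs C hC).2 h1
  · exact (hs C hC).1 h1

end Pool.Agent.Helper914M
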