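import Pool.Agent.Helper914_Men.BiUnb

/-!
The characterization of `𝔯 < 𝔡 ≤ add(Menger)`.
-/

namespace Pool.Agent.Helper914M

open Set Filter Cardinal Topology

/-- The characteristic functions of the finite sets. -/
def FS : Set (ℕ → Bool) := range fun s : Finset ℕ => chi (s : Set ℕ)

theorem FS_countable : FS.Countable := countable_range _

theorem exists_true_of_not_FS {x : ℕ → Bool} (hx : x ∉ FS) (n : ℕ) : ∃ j, n ≤ j ∧ x j = true := by
  classical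
  by_contra hcon
  push Not at hcon
  refine hx ⟨(Finset.range n).filter (fun j => x j = true), ?_⟩
  funext j
  rw [Bool.eq_iff_iff, chi_eq_true, Finset.mem_coe, Finset.mem_filter, Finset.mem_range]
  constructor
  · exact fun h => h.2
  · intro h
    refine ⟨?_, h⟩
    by_contra h2
    exact hcon j (not_lt.1 h2) h

/-- The concentration of the family. -/
theorem conc_family {κT : Type} [LinearOrder κT] (hsm : ∀ ξ : κT, #(Iio ξ) < dN)
    (e : κT → ℕ → ℕ) (he : ∀ g : ℕ → ℕ, ∃ ξ, ∀ᶠ n in atTop, g n ≤ e ξ n)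
    (a : κT → Set ℕ)
    (ha : ∀ ξ η, η < ξ → ∃ᶠ n in atTop, ∀ j, n ≤ j → j < e η n → j ∉ a ξ)
    (V : Set (ℕ → Bool)) (hV : IsOpen V) (hFV : FS ⊆ V) :
    #((range fun ξ => chi (a ξ)) \ V : Set (ℕ → Bool)) < dN := by
  have hK : IsCompact Vᶜ := hV.isClosed_compl.isCompact
  have h1 : ∀ n, ∃ m, Vᶜ ⊆ ⋃ j ∈ Finset.Icc n m, {x : ℕ → Bool | x j = true} := by
    intro n
    refine hK.elim_directed_cover (fun m => ⋃ j ∈ Finset.Icc n m, {x : ℕ → Bool | x j = true})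
      (fun m => isOpen_biUnion fun j _ => isOpen_coord j) ?_ ?_
    · intro x hx
      obtain ⟨j, hj, hxj⟩ := exists_true_of_not_FS (fun h => hx (hFV h)) n
      exact mem_iUnion.2 ⟨j, mem_iUnion₂.2 ⟨j, Finset.mem_Icc.2 ⟨hj, le_rfl⟩, hxj⟩⟩
    · apply Monotone.directed_le
      intro a b hab x hx
      obtain ⟨k, hk, hxk⟩ := mem_iUnion₂.1 hx
      refine mem_iUnion₂.2 ⟨k, ?_, hxk⟩
      rw [Finset.mem_Icc] at *
      omega
  choose G hG using h1
  obtain ⟨η, hη⟩ := he (fun n => G n + 1)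
  have h2 : ((range fun ξ => chi (a ξ)) \ V : Set (ℕ → Bool)) ⊆
      (fun ξ => chi (a ξ)) '' (insert η (Iio η)) := by
    rintro _ ⟨⟨ξ, rfl⟩, hx⟩
    refine ⟨ξ, ?_, rfl⟩
    by_contra hcon
    have h3 : η < ξ := by
      rcases lt_trichotomy ξ η with h | h | h
      · exact absurd (Or.inr h) hcon
      · exact absurd (Or.inl h) hcon
      · exact h
    obtain ⟨n, hn1, hn2⟩ := ((ha ξ η h3).and_eventually hη).exists
    obtain ⟨j, hj, hxj⟩ := mem_iUnion₂.1 (hG n hx)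
    rw [Finset.mem_Icc] at hj
    exact hn1 j hj.1 (by omega) (chi_eq_true.1 hxj)
  refine (mk_le_mk_of_subset h2).trans_lt (mk_image_le.trans_lt (mk_insert_le.trans_lt ?_))
  exact add_lt_of_lt aleph0_lt_dN.le (hsm η) (one_lt_aleph0.trans aleph0_lt_dN)

/-- A dominating family enumerated in the order type of `𝔡`. -/
theorem exists_scale : ∃ (κT : Type) (_ : LinearOrder κT), WellFoundedLT κT ∧ #κT = dN ∧
    (∀ ξ : κT, #(Iio ξ) < dN) ∧
    ∃ e : κT → ℕ → ℕ, (∀ ξ, Monotone (e ξ)) ∧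
      ∀ g : ℕ → ℕ, ∃ ξ, ∀ᶠ n in atTop, g n ≤ e ξ n := by
  obtain ⟨D, hD, hdom⟩ := dN_mem
  refine ⟨dN.ord.ToType, inferInstance, inferInstance, ?_, fun ξ => ?_, ?_⟩
  · exact mk_ord_toType dN
  · exact mk_Iio_toType_ord_lt ξ
  · have h1 : #(dN.ord.ToType) = #D := by rw [mk_ord_toType, hD]
    obtain ⟨e⟩ := Cardinal.eq.1 h1
    refine ⟨fun ξ n => (Finset.range (n + 1)).sup (e ξ : ℕ → ℕ), ?_, ?_⟩
    · intro ξ a b hab
      exact Finset.sup_mono (Finset.range_mono (by omega))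
    · intro g
      obtain ⟨f, hf, hfg⟩ := hdom g
      refine ⟨e.symm ⟨f, hf⟩, hfg.mono fun n hn => ?_⟩
      show g n ≤ (Finset.range (n + 1)).sup (e (e.symm ⟨f, hf⟩) : ℕ → ℕ)
      rw [Equiv.apply_symm_apply]
      exact hn.trans (Finset.le_sup (f := f) (Finset.mem_range.2 (Nat.lt_succ_self n)))

theorem mg_of_DConc {Y : Set ℝ} (h : DConc Y) : Mg Y := by
  obtain ⟨Q, hQY, hQ, hY⟩ := h
  refine Mg.of_conc (Mg.of_small ((le_aleph0_iff_set_countable.2 hQ).trans_lt aleph0_lt_dN)) hQY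
    fun V hV hQV => Mg.of_small (hY V hV hQV)

/-- From the Cantor space to the real line. -/
theorem dConc_emb {Y : Set (ℕ → Bool)} {Q : Set (ℕ → Bool)} (hQ : Q.Countable)
    (h : ∀ V : Set (ℕ → Bool), IsOpen V → Q ⊆ V → #(Y \ V : Set (ℕ → Bool)) < dN) :
    DConc (emb '' (Y ∪ Q)) := by
  refine ⟨emb '' Q, image_mono subset_union_right, hQ.image _, fun V hV hQV => ?_⟩
  have h1 : (emb '' (Y ∪ Q)) \ V ⊆ emb '' (Y \ (emb ⁻¹' V)) := by
    rintro _ ⟨⟨x, hx, rfl⟩, hxV⟩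
    rcases hx with hx | hx
    · exact ⟨x, ⟨hx, hxV⟩, rfl⟩
    · exact absurd (hQV ⟨x, hx, rfl⟩) hxV
  refine (mk_le_mk_of_subset h1).trans_lt (mk_image_le.trans_lt (h _ ?_ ?_))
  · exact hV.preimage emb_closed.continuous
  · exact fun q hq => hQV ⟨q, hq, rfl⟩

theorem aux_bool {b c : Bool} (h : c = !b) (hc : c ≠ true) : b = true := by
  revert h hc
  cases b <;> cases c <;> decide

/-- **The case `𝔡 ≤ 𝔯`**: two concentrated sets of reals whose product is not Menger. -/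
theorem exists_conc_of_dle (hdr : dN ≤ rN) : ∃ X Y : Set ℝ, DConc X ∧ DConc Y ∧
    ¬ Mg (X ×ˢ Y) := by
  obtain ⟨κT, _, _, _, hsm, e, hem, he⟩ := exists_scale
  have h1 : ∀ ξ : κT, ∃ a : Set ℕ, a.Infinite ∧ aᶜ.Infinite ∧
      (∀ i : Iio ξ, ∃ᶠ n in atTop, ∀ j, n ≤ j → j < e i n → j ∉ a) ∧
      (∀ i : Iio ξ, ∃ᶠ n in atTop, ∀ j, n ≤ j → j < e i n → j ∈ a) ∧
      ∀ n m, Alt a n m → e ξ n ≤ m := fun ξ =>
    exists_bi hdr (hsm ξ) (fun i : Iio ξ => e i) (fun i => hem i) (e ξ)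
  choose a ha1 ha2 ha3 ha4 ha5 using h1
  refine ⟨emb '' ((range fun ξ => chi (a ξ)) ∪ FS), emb '' ((range fun ξ => chi (a ξ)ᶜ) ∪ FS),
    ?_, ?_, ?_⟩
  · exact dConc_emb FS_countable fun V hV hFV => conc_family hsm e he a
      (fun ξ η hη => ha3 ξ ⟨η, hη⟩) V hV hFV
  · exact dConc_emb FS_countable fun V hV hFV => conc_family hsm e he (fun ξ => (a ξ)ᶜ)
      (fun ξ η hη => (ha4 ξ ⟨η, hη⟩).mono fun n hn j hj hj' => by
        simpa using hn j hj hj') V hV hFV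
  · intro hM
    -- the product in the square of the Cantor space
    have h2 : Mg (((range fun ξ => chi (a ξ)) ∪ FS) ×ˢ ((range fun ξ => chi (a ξ)ᶜ) ∪ FS)) := by
      refine Mg.of_inducing (f := Prod.map emb emb)
        (emb_closed.isInducing.prodMap emb_closed.isInducing) ?_
      rw [prodMap_image_prod]
      exact hM
    have h3 : IsClosed {p : (ℕ → Bool) × (ℕ → Bool) | ∀ n, p.2 n = !(p.1 n)} := by
      have : {p : (ℕ → Bool) × (ℕ → Bool) | ∀ n, p.2 n = !(p.1 n)} =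
          ⋂ n, {p : (ℕ → Bool) × (ℕ → Bool) | p.2 n = !(p.1 n)} := by
        ext p; simp
      rw [this]
      refine isClosed_iInter fun n => isClosed_eq (by fun_prop) ?_
      exact (continuous_of_discreteTopology (f := not)).comp (by fun_prop)
    have h4 := h2.inter_closed h3
    have h5 : ∀ p ∈ (((range fun ξ => chi (a ξ)) ∪ FS) ×ˢ ((range fun ξ => chi (a ξ)ᶜ) ∪ FS)) ∩
        {p : (ℕ → Bool) × (ℕ → Bool) | ∀ n, p.2 n = !(p.1 n)}, {j | p.1 j = true}.Infinite ∧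
          {j | p.1 j = true}ᶜ.Infinite := by
      rintro ⟨x, y⟩ ⟨⟨hx, hy⟩, hxy⟩
      have hxy' : ∀ n, y n = !(x n) := hxy
      constructor
      · rcases hy with ⟨ξ, rfl⟩ | ⟨s, rfl⟩
        · refine (ha1 ξ).mono fun j hj => ?_
          have h6 : chi (a ξ)ᶜ j = !(x j) := hxy' j
          have h7 : chi (a ξ)ᶜ j ≠ true := fun h => (chi_eq_true.1 h) hj
          exact aux_bool h6 h7
        · refine (s.finite_toSet.infinite_compl).mono fun j hj => ?_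
          have h6 : chi (s : Set ℕ) j = !(x j) := hxy' j
          have h7 : chi (s : Set ℕ) j ≠ true := fun h => hj (chi_eq_true.1 h)
          exact aux_bool h6 h7
      · rcases hx with ⟨ξ, rfl⟩ | ⟨s, rfl⟩
        · refine (ha2 ξ).mono fun j hj => ?_
          exact fun h => hj (chi_eq_true.1 h)
        · refine (s.finite_toSet.infinite_compl).mono fun j hj => ?_
          exact fun h => hj (chi_eq_true.1 h)
    obtain ⟨g, _, hg⟩ := h4.freq (fun n m => {p | Alt {j | p.1 j = true} n m}) (by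
        intro n m
        have : {p : (ℕ → Bool) × (ℕ → Bool) | Alt {j | p.1 j = true} n m} =
            ⋃ i, ⋃ j, ⋃ k, ⋃ (_ : n ≤ i ∧ i < j ∧ j < k ∧ k ≤ m),
              (fun p : (ℕ → Bool) × (ℕ → Bool) => (p.1 i, p.1 j, p.1 k)) ⁻¹'
                {q | (q.1 = true ∧ q.2.1 ≠ true ∧ q.2.2 = true) ∨
                  (q.1 ≠ true ∧ q.2.1 = true ∧ q.2.2 ≠ true)} := by
          ext p
          simp only [Alt, mem_iUnion, mem_preimage, mem_ofPred_eq, exists_prop]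
          constructor
          · rintro ⟨i, j, k, h1, h2, h3, h4, h5⟩
            exact ⟨i, j, k, ⟨h1, h2, h3, h4⟩, h5⟩
          · rintro ⟨i, j, k, ⟨h1, h2, h3, h4⟩, h5⟩
            exact ⟨i, j, k, h1, h2, h3, h4, h5⟩
        rw [this]
        refine isOpen_iUnion fun i => isOpen_iUnion fun j => isOpen_iUnion fun k =>
          isOpen_iUnion fun _ => ?_
        exact (isOpen_discrete _).preimage (by fun_prop))
      (by
        intro n m m' hmm' p hp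
        obtain ⟨i, j, k, h1, h2, h3, h4, h5⟩ := hp
        exact ⟨i, j, k, h1, h2, h3, h4.trans hmm', h5⟩)
      (by
        intro n p hp
        obtain ⟨hp1, hp2⟩ := h5 p hp
        obtain ⟨i, hi, hni⟩ := hp1.exists_gt n
        obtain ⟨j, hj, hij⟩ := hp2.exists_gt i
        obtain ⟨k, hk, hjk⟩ := hp1.exists_gt j
        exact ⟨k, i, j, k, hni.le, hij, hjk, le_rfl, Or.inl ⟨hi, hj, hk⟩⟩)
    obtain ⟨ξ, hξ⟩ := he (fun n => g n + 1)
    have h6 := hg (chi (a ξ), chi (a ξ)ᶜ) (by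
      refine ⟨⟨Or.inl ⟨ξ, rfl⟩, Or.inl ⟨ξ, rfl⟩⟩, fun n => ?_⟩
      have h7 : chi (a ξ) n = true ↔ n ∈ a ξ := chi_eq_true
      have h8 : chi (a ξ)ᶜ n = true ↔ n ∈ (a ξ)ᶜ := chi_eq_true
      rw [mem_compl_iff] at h8
      revert h7 h8
      show _ → _ → chi (a ξ)ᶜ n = !(chi (a ξ) n)
      cases chi (a ξ) n <;> cases chi (a ξ)ᶜ n <;> simp)
    obtain ⟨n, hn1, hn2⟩ := (h6.and_eventually hξ).exists
    have h7 : Alt (a ξ) n (g n) := by
      have : {j | chi (a ξ) j = true} = a ξ := by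
        ext j; exact chi_eq_true
      have h8 : Alt {j | chi (a ξ) j = true} n (g n) := hn1
      rwa [this] at h8
    have h8 := ha5 ξ n (g n) h7
    omega

/-- **The case `𝔡 ≤ 𝔯`, with an ultrafilter**: a concentrated set of reals for which the
ultrafilter version of the Menger property fails. -/
theorem exists_ultra_conc (hdr : dN ≤ rN) (𝒱 : Ultrafilter ℕ) (hV : ∀ k, {n | k ≤ n} ∈ 𝒱) :
    ∃ X : Set ℝ, DConc X ∧ ∃ U : ℕ → ℕ → Set ℝ, (∀ n m, IsOpen (U n m)) ∧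
      (∀ n, Monotone (U n)) ∧ (∀ n, ∀ x ∈ X, ∃ m, x ∈ U n m) ∧
      ¬ ∃ g : ℕ → ℕ, ∀ x ∈ X, {n | x ∈ U n (g n)} ∈ 𝒱 := by
  obtain ⟨κT, _, _, _, hsm, e, hem, he⟩ := exists_scale
  have h1 : ∀ ξ : κT, ∃ b : Set ℕ,
      (∀ i : Iio ξ, ∃ᶠ n in atTop, ∀ j, n ≤ j → j < e i n → j ∉ b) ∧ bᶜ.Infinite ∧
      {n | ∀ j, n ≤ j → j ≤ e ξ n → j ∈ b} ∈ 𝒱 := fun ξ =>
    exists_ultra hdr (hsm ξ) (fun i : Iio ξ => e i) (fun i => hem i) (e ξ) 𝒱 hV
  choose b hb1 hb2 hb3 using h1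
  have hX := dConc_emb (Y := range fun ξ => chi (b ξ)) FS_countable fun V hV hFV =>
    conc_family hsm e he b (fun ξ η hη => hb1 ξ ⟨η, hη⟩) V hV hFV
  refine ⟨_, hX, ?_⟩
  -- the open sets of the Cantor space
  let W : ℕ → ℕ → Set (ℕ → Bool) := fun n m => ⋃ j ∈ Finset.Icc n m, {x | x j = true}ᶜ
  have hW : ∀ n m, IsOpen (W n m) := by
    intro n m
    refine isOpen_biUnion fun j _ => ?_
    have h2 : Continuous fun a : ℕ → Bool => a j := continuous_apply j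
    exact (isOpen_discrete ({true}ᶜ : Set Bool)).preimage h2
  have hWo : ∀ n m, ∃ O : Set ℝ, IsOpen O ∧ emb ⁻¹' O = W n m := fun n m =>
    emb_closed.isInducing.isOpen_iff.1 (hW n m)
  choose O hO hOW using hWo
  have hWm : ∀ n, Monotone (W n) := by
    intro n a b hab x hx
    obtain ⟨k, hk, hxk⟩ := mem_iUnion₂.1 hx
    refine mem_iUnion₂.2 ⟨k, ?_, hxk⟩
    rw [Finset.mem_Icc] at *
    omega
  have hpre : ∀ n m x, emb x ∈ (⋃ k ∈ Finset.range (m + 1), O n k) ↔ x ∈ W n m := by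
    intro n m x
    constructor
    · intro h
      obtain ⟨k, hk, hxk⟩ := mem_iUnion₂.1 h
      rw [Finset.mem_range] at hk
      have h2 : x ∈ W n k := by rw [← hOW]; exact hxk
      exact hWm n (by omega) h2
    · intro h
      refine mem_iUnion₂.2 ⟨m, Finset.mem_range.2 (Nat.lt_succ_self _), ?_⟩
      rw [← hOW] at h
      exact h
  refine ⟨fun n m => ⋃ k ∈ Finset.range (m + 1), O n k,
    fun n m => isOpen_biUnion fun k _ => hO n k, ?_, ?_, ?_⟩
  · intro n a b hab x hx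
    obtain ⟨k, hk, hxk⟩ := mem_iUnion₂.1 hx
    refine mem_iUnion₂.2 ⟨k, ?_, hxk⟩
    rw [Finset.mem_range] at *
    omega
  · rintro n _ ⟨x, hx, rfl⟩
    have h2 : ∃ j, n ≤ j ∧ x j ≠ true := by
      rcases hx with ⟨ξ, rfl⟩ | ⟨s, rfl⟩
      · obtain ⟨j, hj, hnj⟩ := (hb2 ξ).exists_gt n
        exact ⟨j, hnj.le, fun h => hj (chi_eq_true.1 h)⟩
      · obtain ⟨j, hj, hnj⟩ := (s.finite_toSet.infinite_compl).exists_gt n
        exact ⟨j, hnj.le, fun h => hj (chi_eq_true.1 h)⟩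
    obtain ⟨j, hnj, hj⟩ := h2
    refine ⟨j, (hpre _ _ _).2 (mem_iUnion₂.2 ⟨j, Finset.mem_Icc.2 ⟨hnj, le_rfl⟩, hj⟩)⟩
  · rintro ⟨g, hg⟩
    obtain ⟨ξ, hξ⟩ := he g
    obtain ⟨K, hK⟩ := eventually_atTop.1 hξ
    have h2 := hg (emb (chi (b ξ))) ⟨_, Or.inl ⟨ξ, rfl⟩, rfl⟩
    have h3 := Filter.inter_mem (Filter.inter_mem h2 (hb3 ξ)) (hV K)
    obtain ⟨n, ⟨hn1, hn2⟩, hn3⟩ := Ultrafilter.nonempty_of_mem h3
    have hn4 := (hpre _ _ _).1 hn1
    obtain ⟨j, hj, hxj⟩ := mem_iUnion₂.1 hn4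
    rw [Finset.mem_Icc] at hj
    exact hxj (chi_eq_true.2 (hn2 j hj.1 (hj.2.trans (hK n hn3))))

end Pool.Agent.Helper914M
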