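import Mathlib

/-!
The definitions: the Menger property, the cardinals `𝔡`, `𝔯`, `add(Menger)`, concentrated sets and
the Menger property in the sense of an ultrafilter.
-/

namespace Pool.Agent.Helper914M

open Set Filter Cardinal Topology

/-- The Menger property of a topological space: for every sequence of open covers there are
finite subfamilies of its members which together cover the space. -/
def MengerSp (Z : Type) [TopologicalSpace Z] : Prop :=
  ∀ U : ℕ → Set (Set Z), (∀ n, (∀ u ∈ U n, IsOpen u) ∧ ⋃₀ U n = Set.univ) →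
    ∃ F : ℕ → Set (Set Z), (∀ n, F n ⊆ U n ∧ (F n).Finite) ∧ (⋃ n, ⋃₀ F n) = Set.univ

/-- The dominating number `𝔡`. -/
noncomputable def dN : Cardinal.{0} :=
  sInf {κ | ∃ D : Set (ℕ → ℕ), #D = κ ∧ ∀ g : ℕ → ℕ, ∃ f ∈ D, ∀ᶠ n in atTop, g n ≤ f n}

/-- `A` splits `B`. -/
def Splits (A B : Set ℕ) : Prop := (B ∩ A).Infinite ∧ (B \ A).Infinite

/-- The reaping number `𝔯`. -/
noncomputable def rN : Cardinal.{0} :=
  sInf {κ | ∃ R : Set (Set ℕ), #R = κ ∧ (∀ B ∈ R, B.Infinite) ∧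
    ¬ ∃ A : Set ℕ, A.Infinite ∧ ∀ B ∈ R, Splits A B}

/-- The additivity number of the family of Menger sets of reals. -/
noncomputable def addM : Cardinal.{0} :=
  sInf {κ | ∃ S : Set (Set ℝ), #S = κ ∧ (∀ X ∈ S, MengerSp X) ∧ ¬ MengerSp (⋃₀ S)}

/-- `Y` is `𝔡`-concentrated on a countable subset (sets of size less than `𝔡` included): there is
a countable `Q ⊆ Y` such that every open set containing `Q` contains all but fewer than `𝔡`
elements of `Y`. -/
def DConc (Y : Set ℝ) : Prop :=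
  ∃ Q : Set ℝ, Q ⊆ Y ∧ Q.Countable ∧ ∀ V : Set ℝ, IsOpen V → Q ⊆ V → #(Y \ V : Set ℝ) < dN

/-- `Y` is `𝔡`-concentrated on a `σ`-compact subset (sets of size less than `𝔡` included). -/
def SDConc (Y : Set ℝ) : Prop :=
  ∃ Q : Set ℝ, Q ⊆ Y ∧ IsSigmaCompact Q ∧
    ∀ V : Set ℝ, IsOpen V → Q ⊆ V → #(Y \ V : Set ℝ) < dN

/-- The Menger property in the sense of an ultrafilter. -/
def UMengerSp (𝒱 : Ultrafilter ℕ) (Z : Type) [TopologicalSpace Z] : Prop :=
  ∀ U : ℕ → Set (Set Z), (∀ n, (∀ u ∈ U n, IsOpen u) ∧ ⋃₀ U n = Set.univ) →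
    ∃ F : ℕ → Set (Set Z), (∀ n, F n ⊆ U n ∧ (F n).Finite) ∧ ∀ z, {n | z ∈ ⋃₀ F n} ∈ 𝒱

end Pool.Agent.Helper914M
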