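import Pool.Agent.Helper914_Men.Card

/-!
`F`-Menger sets, where `F` is the filter given by a hereditarily reaping family, and the
characterizations of `𝔯 < 𝔡 ≤ add(Menger)`.
-/

namespace Pool.Agent.Helper914M

open Set Filter Cardinal Topology

/-- `X` is Menger in the sense of the filter given by `A`. -/
def FMg (A : Set (Set ℕ)) {α : Type} [TopologicalSpace α] (X : Set α) : Prop :=
  ∀ U : ℕ → ℕ → Set α, (∀ n m, IsOpen (U n m)) → (∀ n, Monotone (U n)) →
    (∀ n, ∀ x ∈ X, ∃ m, x ∈ U n m) → ∃ g : ℕ → ℕ, ∀ x ∈ X, Pos A {n | x ∈ U n (g n)}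

theorem FMg.mg {A : Set (Set ℕ)} (hA : HR A) {α : Type} [TopologicalSpace α] {X : Set α}
    (h : FMg A X) : Mg X := by
  intro U hU hm hc
  obtain ⟨g, hg⟩ := h U hU hm hc
  exact ⟨g, fun x hx => (hg x hx).nonempty hA⟩

theorem FMg.iUnion {A : Set (Set ℕ)} (hA : HR A) (hAd : #A < dN) {α : Type}
    [TopologicalSpace α] {ι : Type} (hι : #ι < dN) {X : ι → Set α} (h : ∀ i, FMg A (X i)) :
    FMg A (⋃ i, X i) := by
  intro U hU hm hc
  have h1 : ∀ i, ∃ g : ℕ → ℕ, ∀ x ∈ X i, Pos A {n | x ∈ U n (g n)} := fun i =>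
    h i U hU hm fun n x hx => hc n x (mem_iUnion.2 ⟨i, hx⟩)
  choose g hg using h1
  obtain ⟨k, _, hk⟩ := exists_Pos_bound hA hAd hι g
  refine ⟨k, fun x hx => ?_⟩
  obtain ⟨i, hi⟩ := mem_iUnion.1 hx
  refine ((hg i x hi).inter hA (hk i)).mono ?_
  rintro n ⟨hn1, hn2⟩
  exact hm n hn2 hn1

theorem FMg.singleton {A : Set (Set ℕ)} (hA : HR A) {α : Type}
    [TopologicalSpace α] (x : α) : FMg A ({x} : Set α) := by
  intro U hU hm hc
  have h1 : ∀ n, ∃ m, x ∈ U n m := fun n => hc n x rfl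
  choose g hg using h1
  refine ⟨g, fun y hy => ?_⟩
  have hy' : y = x := hy
  subst hy'
  exact Pos.of_eventually hA (p := fun n => y ∈ U n (g n)) (Eventually.of_forall hg)

theorem FMg.image {A : Set (Set ℕ)} {α β : Type} [TopologicalSpace α] [TopologicalSpace β]
    {X : Set α} (h : FMg A X) {f : α → β} (hf : Continuous f) : FMg A (f '' X) := by
  intro U hU hm hc
  obtain ⟨g, hg⟩ := h (fun n m => f ⁻¹' (U n m)) (fun n m => (hU n m).preimage hf)
    (fun n a b hab => preimage_mono (hm n hab)) (fun n x hx => hc n _ ⟨x, hx, rfl⟩)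
  refine ⟨g, ?_⟩
  rintro _ ⟨x, hx, rfl⟩
  exact hg x hx

/-- Sets of size less than `𝔡` are Menger. -/
theorem Mg.of_small {α : Type} [TopologicalSpace α] {X : Set α} (h : #X < dN) : Mg X := by
  intro U hU hm hc
  have h1 : ∀ (x : X) n, ∃ m, (x : α) ∈ U n m := fun x n => hc n x x.2
  choose c hcx using h1
  obtain ⟨g, _, hg⟩ := exists_notDom_ind h c
  refine ⟨g, fun x hx => ?_⟩
  obtain ⟨n, hn⟩ := (hg ⟨x, hx⟩).exists
  exact ⟨n, hm n hn.le (hcx ⟨x, hx⟩ n)⟩

theorem isOpen_coord (k : ℕ) : IsOpen {a : ℕ → Bool | a k = true} := by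
  have : Continuous fun a : ℕ → Bool => a k := continuous_apply k
  exact (isOpen_discrete ({true} : Set Bool)).preimage this

/-- A closed embedding of the Cantor space in the real line. -/
noncomputable def emb : (ℕ → Bool) → ℝ := fun x => (cantorSetHomeomorphNatToBool.symm x : cantorSet)

theorem emb_closed : IsClosedEmbedding emb := by
  apply Continuous.isClosedEmbedding
  · exact continuous_subtype_val.comp cantorSetHomeomorphNatToBool.symm.continuous
  · exact Subtype.val_injective.comp cantorSetHomeomorphNatToBool.symm.injective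

/-- The square of the Cantor space is the Cantor space. -/
noncomputable def sq : ((ℕ → Bool) × (ℕ → Bool)) ≃ₜ (ℕ → Bool) :=
  (Homeomorph.sumArrowHomeomorphProdArrow (ι := ℕ) (ι' := ℕ) (X := Bool)).symm.trans
    (Homeomorph.piCongrLeft (Y := fun _ : ℕ => Bool) Equiv.natSumNatEquivNat)

/-- A closed embedding of the square of the Cantor space in the real line. -/
noncomputable def emb2 : ((ℕ → Bool) × (ℕ → Bool)) → ℝ := fun x => emb (sq x)

theorem emb2_closed : IsClosedEmbedding emb2 := emb_closed.comp sq.isClosedEmbedding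

/-- Closed bounded intervals are continuous images of the Cantor space. -/
theorem exists_phi (k : ℕ) : ∃ φ : (ℕ → Bool) → ℝ, Continuous φ ∧
    range φ = Icc (-(k : ℝ)) k := by
  have hne : Nonempty (Icc (-(k : ℝ)) k) := ⟨⟨0, by simp⟩⟩
  obtain ⟨f, hf, hfs⟩ := exists_nat_bool_continuous_surjective_of_compact (Icc (-(k : ℝ)) k)
  refine ⟨fun x => f x, continuous_subtype_val.comp hf, ?_⟩
  have : (fun x => (f x : ℝ)) = Subtype.val ∘ f := rfl
  rw [this, range_comp, hfs.range_eq, image_univ, Subtype.range_coe]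

/-- A set of size less than `𝔡` in the Cantor space times a Menger set of reals. -/
def SmallProd : Prop := ∀ X : Set ℝ, Mg X → ∀ Z : Set (ℕ → Bool), #Z < dN → Mg (X ×ˢ Z)

/-- All Menger sets of reals are Menger in the sense of one filter. -/
def AllF (A : Set (Set ℕ)) : Prop := HR A ∧ #A < dN ∧ ∀ X : Set ℝ, Mg X → FMg A X

theorem union_of_addM {S : Set (Set ℝ)} (hS : #S < addM) (h : ∀ X ∈ S, Mg X) : Mg (⋃₀ S) := by
  by_contra hcon
  refine (not_le.2 hS) (csInf_le' ⟨S, rfl, fun X hX => (mengerSp_iff X).2 (h X hX), ?_⟩)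
  rw [mengerSp_iff]
  exact hcon

theorem smallProd_of_add (h : dN ≤ addM) : SmallProd := by
  intro X hX Z hZ
  have hpiece : ∀ k : ℕ, Mg ((X ∩ Icc (-(k : ℝ)) k) ×ˢ Z) := by
    intro k
    obtain ⟨φ, hφ, hr⟩ := exists_phi k
    have h1 : Mg (φ ⁻¹' X) := hX.preimage_compact hφ
    have h2 : Mg ((φ ⁻¹' X) ×ˢ Z) := by
      apply Mg.of_inducing emb2_closed.isInducing
      have h3 : emb2 '' ((φ ⁻¹' X) ×ˢ Z) =
          ⋃₀ range (fun z : Z => (fun a => emb2 (a, (z : ℕ → Bool))) '' (φ ⁻¹' X)) := by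
        ext y
        constructor
        · rintro ⟨⟨a, z⟩, ⟨ha, hz⟩, rfl⟩
          exact ⟨_, ⟨⟨z, hz⟩, rfl⟩, a, ha, rfl⟩
        · rintro ⟨_, ⟨z, rfl⟩, a, ha, rfl⟩
          exact ⟨(a, z), ⟨ha, z.2⟩, rfl⟩
      rw [h3]
      apply union_of_addM
      · exact (lt_of_le_of_lt mk_range_le hZ).trans_le h
      · rintro _ ⟨z, rfl⟩
        exact h1.image (emb2_closed.continuous.comp (by fun_prop))
    have h4 : (X ∩ Icc (-(k : ℝ)) k) ×ˢ Z = (fun p : (ℕ → Bool) × (ℕ → Bool) => (φ p.1, p.2)) ''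
        ((φ ⁻¹' X) ×ˢ Z) := by
      ext ⟨x, z⟩
      constructor
      · rintro ⟨⟨hx, hx2⟩, hz⟩
        rw [← hr] at hx2
        obtain ⟨a, rfl⟩ := hx2
        exact ⟨(a, z), ⟨hx, hz⟩, rfl⟩
      · rintro ⟨⟨a, z'⟩, ⟨ha, hz⟩, he⟩
        simp only [Prod.mk.injEq] at he
        obtain ⟨rfl, rfl⟩ := he
        exact ⟨⟨ha, by rw [← hr]; exact ⟨a, rfl⟩⟩, hz⟩
    rw [h4]
    exact h2.image (by fun_prop)
  have h5 : X ×ˢ Z = ⋃ k : ℕ, (X ∩ Icc (-(k : ℝ)) k) ×ˢ Z := by
    ext ⟨x, z⟩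
    simp only [mem_prod, mem_iUnion, mem_inter_iff]
    constructor
    · rintro ⟨hx, hz⟩
      obtain ⟨k, hk⟩ := exists_nat_ge |x|
      exact ⟨k, ⟨hx, abs_le.1 hk⟩, hz⟩
    · rintro ⟨k, ⟨hx, _⟩, hz⟩
      exact ⟨hx, hz⟩
  rw [h5]
  exact Mg.iUnion hpiece

/-- The characteristic function of a set of natural numbers. -/
noncomputable def chi (B : Set ℕ) : ℕ → Bool := fun n => @decide (n ∈ B) (Classical.dec _)

theorem chi_eq_true {B : Set ℕ} {n : ℕ} : chi B n = true ↔ n ∈ B := by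
  unfold chi
  exact @decide_eq_true_iff _ (Classical.dec _)

theorem fmg_of_smallProd (h : SmallProd) {A : Set (Set ℕ)} (hA : HR A) (hAd : #A < dN)
    {X : Set ℝ} (hX : Mg X) : FMg A X := by
  intro U hU hm hc
  have h1 : Mg (X ×ˢ (chi '' A)) := h X hX _ (lt_of_le_of_lt mk_image_le hAd)
  let V : ℕ → ℕ → Set (ℝ × (ℕ → Bool)) := fun n m =>
    ⋃ k ∈ Finset.Icc n m, (U k m) ×ˢ {a : ℕ → Bool | a k = true}
  obtain ⟨g, hg, hgV⟩ := h1.freq V
    (fun n m => isOpen_biUnion fun k _ => (hU k m).prod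
      (isOpen_coord k))
    (by
      intro n a b hab x hx
      obtain ⟨k, hk, hxk⟩ := mem_iUnion₂.1 hx
      refine mem_iUnion₂.2 ⟨k, ?_, hm k hab hxk.1, hxk.2⟩
      rw [Finset.mem_Icc] at *
      omega)
    (by
      rintro n ⟨x, _⟩ ⟨hx, B, hB, rfl⟩
      obtain ⟨k, hk, hnk⟩ := (hA.inf B hB).exists_gt n
      obtain ⟨m, hm'⟩ := hc k x hx
      refine ⟨max k m, mem_iUnion₂.2 ⟨k, ?_, hm k (le_max_right _ _) hm', ?_⟩⟩
      · rw [Finset.mem_Icc]
        exact ⟨hnk.le, le_max_left _ _⟩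
      · exact chi_eq_true.2 hk)
  refine ⟨g, fun x hx B hB => ?_⟩
  have h3 : {n | n ∈ B ∩ {n | x ∈ U n (g n)}}.Infinite := by
    rw [← Nat.frequently_atTop_iff_infinite, frequently_atTop]
    intro j
    obtain ⟨n, hn, hn'⟩ := frequently_atTop.1 (hgV (x, chi B) ⟨hx, B, hB, rfl⟩) j
    obtain ⟨k, hk, hxk⟩ := mem_iUnion₂.1 hn'
    rw [Finset.mem_Icc] at hk
    exact ⟨k, by omega, chi_eq_true.1 hxk.2, hm k (hg hk.1) hxk.1⟩
  exact h3

theorem allF_of_smallProd (h : SmallProd) (hr : rN < dN) : ∃ A, AllF A := by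
  obtain ⟨A, hA, hAd⟩ := exists_HR hr
  exact ⟨A, hA, hAd, fun X hX => fmg_of_smallProd h hA hAd hX⟩

theorem AllF.lt {A : Set (Set ℕ)} (h : AllF A) : rN < dN :=
  (rN_le_of_HR h.1).trans_lt h.2.1

theorem AllF.add {A : Set (Set ℕ)} (h : AllF A) : dN ≤ addM := by
  unfold addM
  refine le_csInf ?_ ?_
  · -- the family of the singletons of a set which is not Menger
    by_contra hcon
    have key : ∀ X : Set ℝ, Mg X := by
      intro X
      by_contra hX
      refine hcon ⟨_, (fun x => ({x} : Set ℝ)) '' X, rfl, ?_, ?_⟩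
      · rintro _ ⟨x, _, rfl⟩
        rw [mengerSp_iff]
        exact (FMg.singleton h.1 x).mg h.1
      · rw [mengerSp_iff]
        have : ⋃₀ ((fun x => ({x} : Set ℝ)) '' X) = X := by
          rw [sUnion_image]
          simp
        rw [this]
        exact hX
    -- the family of sets of reals coding functions
    let c : (ℕ → ℕ) → (ℕ → Bool) := fun f k => decide ((Nat.unpair k).2 = f (Nat.unpair k).1)
    have h1 := key (emb '' range c)
    have h2 : Mg (range c) := h1.of_inducing emb_closed.isInducing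
    obtain ⟨g, hg⟩ := h2 (fun n m => ⋃ k ∈ Finset.range (m + 1),
      {a : ℕ → Bool | a (Nat.pair n k) = true}) (fun n m => isOpen_biUnion fun k _ =>
        isOpen_coord _)
      (by
        intro n a b hab x hx
        obtain ⟨k, hk, hxk⟩ := mem_iUnion₂.1 hx
        refine mem_iUnion₂.2 ⟨k, ?_, hxk⟩
        rw [Finset.mem_range] at *
        omega)
      (by
        rintro n _ ⟨f, rfl⟩
        refine ⟨f n, mem_iUnion₂.2 ⟨f n, Finset.mem_range.2 (Nat.lt_succ_self _), ?_⟩⟩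
        simp [c])
    obtain ⟨n, hn⟩ := hg (c fun n => g n + 1) ⟨fun n => g n + 1, rfl⟩
    obtain ⟨k, hk, hxk⟩ := mem_iUnion₂.1 hn
    rw [Finset.mem_range] at hk
    simp only [c, mem_ofPred_eq, Nat.unpair_pair, decide_eq_true_eq] at hxk
    omega
  · rintro κ ⟨S, rfl, hS, hSn⟩
    by_contra hcon
    rw [not_le] at hcon
    apply hSn
    rw [mengerSp_iff, sUnion_eq_iUnion]
    refine (FMg.iUnion h.1 h.2.1 hcon fun X => h.2.2 _ ?_).mg h.1
    rw [← mengerSp_iff]
    exact hS X X.2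

end Pool.Agent.Helper914M
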