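import Pool.Agent.Helper914_Men.Cases

/-!
The characterizations of `𝔯 < 𝔡 ≤ add(Menger)`.
-/

namespace Pool.Agent.Helper914M

open Set Filter Cardinal Topology

theorem DConc.sDConc {Y : Set ℝ} (h : DConc Y) : SDConc Y := by
  obtain ⟨Q, hQY, hQ, hY⟩ := h
  refine ⟨Q, hQY, ?_, hY⟩
  have : Q = ⋃ q ∈ Q, {q} := by simp
  rw [this]
  exact isSigmaCompact_biUnion hQ (fun q _ => isCompact_singleton.isSigmaCompact)

theorem exists_allF (hr : rN < dN) (ha : dN ≤ addM) : ∃ A, AllF A :=
  allF_of_smallProd (smallProd_of_add ha) hr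

theorem smallProd_of_conc (h : ∀ X Y : Set ℝ, MengerSp X → DConc Y → MengerSp (X × Y)) :
    SmallProd := by
  intro X hX Z hZ
  have h1 := h X (emb '' Z) ((mengerSp_iff X).2 hX) ⟨∅, empty_subset _, countable_empty,
    fun V _ _ => (mk_le_mk_of_subset sdiff_subset).trans_lt (mk_image_le.trans_lt hZ)⟩
  rw [mengerSp_prod_iff] at h1
  refine Mg.of_inducing (f := Prod.map id emb)
    (IsInducing.id.prodMap emb_closed.isInducing) ?_
  rw [prodMap_image_prod, image_id]
  exact h1

theorem main1 : List.TFAE [rN < dN ∧ dN ≤ addM,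
    ∀ X Y : Set ℝ, MengerSp X → SDConc Y → MengerSp (X × Y),
    ∀ X Y : Set ℝ, MengerSp X → DConc Y → MengerSp (X × Y)] := by
  tfae_have 1 → 2 := by
    rintro ⟨hr, ha⟩ X Y hX ⟨Q, hQY, hQ, hY⟩
    obtain ⟨A, hA⟩ := exists_allF hr ha
    rw [mengerSp_prod_iff]
    exact mg_prod_conc hA ((mengerSp_iff X).1 hX) hQY hQ hY
  tfae_have 2 → 3 := fun h X Y hX hY => h X Y hX hY.sDConc
  tfae_have 3 → 1 := by
    intro h
    have hr : rN < dN := by
      by_contra hcon
      rw [not_lt] at hcon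
      obtain ⟨X, Y, hX, hY, hXY⟩ := exists_conc_of_dle hcon
      apply hXY
      rw [← mengerSp_prod_iff]
      exact h X Y ((mengerSp_iff X).2 (mg_of_DConc hX)) hY
    obtain ⟨A, hA⟩ := allF_of_smallProd (smallProd_of_conc h) hr
    exact ⟨hr, hA.add⟩
  tfae_finish

/-- The working form. -/
def UMg (𝒱 : Ultrafilter ℕ) {α : Type} [TopologicalSpace α] (X : Set α) : Prop :=
  ∀ U : ℕ → ℕ → Set α, (∀ n m, IsOpen (U n m)) → (∀ n, Monotone (U n)) →
    (∀ n, ∀ x ∈ X, ∃ m, x ∈ U n m) → ∃ g : ℕ → ℕ, ∀ x ∈ X, {n | x ∈ U n (g n)} ∈ 𝒱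

theorem uMengerSp_iff {α : Type} [TopologicalSpace α] [SecondCountableTopology α] (X : Set α)
    (𝒱 : Ultrafilter ℕ) : UMengerSp 𝒱 X ↔ UMg 𝒱 X := by
  classical
  constructor
  · intro h U hU hm hc
    obtain ⟨F, hF, hF2⟩ := h (fun n => {u | ∃ m, u = Subtype.val ⁻¹' (U n m)}) (by
      intro n
      constructor
      · rintro u ⟨m, rfl⟩
        exact (hU n m).preimage continuous_subtype_val
      · rw [eq_univ_iff_forall]
        rintro ⟨x, hx⟩
        obtain ⟨m, hm⟩ := hc n x hx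
        exact ⟨_, ⟨m, rfl⟩, hm⟩)
    have h1 : ∀ n, ∃ m, ∀ u ∈ F n, u ⊆ Subtype.val ⁻¹' (U n m) := by
      intro n
      have h2 : ∀ u : F n, ∃ m, (u : Set X) = Subtype.val ⁻¹' (U n m) := fun u => (hF n).1 u.2
      choose m hm' using h2
      have : Finite (F n) := (hF n).2.to_subtype
      have := Fintype.ofFinite (F n)
      refine ⟨Finset.univ.sup m, fun u hu => ?_⟩
      have h3 := hm' ⟨u, hu⟩
      simp only at h3
      rw [h3]
      exact preimage_mono (hm n (Finset.le_sup (f := m) (Finset.mem_univ _)))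
    choose g hg using h1
    refine ⟨g, fun x hx => ?_⟩
    filter_upwards [hF2 ⟨x, hx⟩] with n hn
    obtain ⟨u, hu, hxu⟩ := hn
    exact hg n u hu hxu
  · intro h U hU
    have h1 : ∀ n, ∃ T ⊆ U n, T.Countable ∧ ⋃₀ T = Set.univ := by
      intro n
      obtain ⟨T, hT, hTU, hTe⟩ := TopologicalSpace.isOpen_sUnion_countable (U n) (hU n).1
      exact ⟨T, hTU, hT, hTe.trans (hU n).2⟩
    choose T hTU hTc hTe using h1
    by_cases hne : Nonempty X
    · obtain ⟨x₀⟩ := hne
      have h2 : ∀ n, ∃ t : ℕ → Set X, T n = range t := by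
        intro n
        apply (hTc n).exists_eq_range
        have : x₀ ∈ ⋃₀ T n := by rw [hTe n]; trivial
        obtain ⟨u, hu, _⟩ := this
        exact ⟨u, hu⟩
      choose t ht using h2
      have h3 : ∀ n k, ∃ V : Set α, IsOpen V ∧ Subtype.val ⁻¹' V = t n k := by
        intro n k
        have : IsOpen (t n k) := (hU n).1 _ (hTU n (by rw [ht n]; exact ⟨k, rfl⟩))
        exact isOpen_induced_iff.1 this
      choose V hV hVt using h3
      obtain ⟨g, hg⟩ := h (fun n m => ⋃ k ∈ Finset.range m, V n k)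
        (fun n m => isOpen_biUnion fun k _ => hV n k)
        (fun n a b hab => biUnion_subset_biUnion_left (by
          intro k hk
          have hk' : k ∈ Finset.range a := hk
          show k ∈ Finset.range b
          rw [Finset.mem_range] at *
          omega))
        (by
          intro n x hx
          have : (⟨x, hx⟩ : X) ∈ ⋃₀ T n := by rw [hTe n]; trivial
          obtain ⟨u, hu, hxu⟩ := this
          rw [ht n] at hu
          obtain ⟨k, rfl⟩ := hu
          rw [← hVt] at hxu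
          exact ⟨k + 1, mem_iUnion₂.2 ⟨k, Finset.mem_range.2 (by omega), hxu⟩⟩)
      refine ⟨fun n => (t n) '' (Iio (g n)), fun n => ⟨?_, (finite_Iio _).image _⟩, ?_⟩
      · rintro _ ⟨k, _, rfl⟩
        exact hTU n (by rw [ht n]; exact ⟨k, rfl⟩)
      · rintro ⟨x, hx⟩
        filter_upwards [hg x hx] with n hn
        obtain ⟨k, hk, hxk⟩ := mem_iUnion₂.1 hn
        refine ⟨t n k, ⟨k, Finset.mem_range.1 hk, rfl⟩, ?_⟩
        rw [← hVt]
        exact hxk
    · exact ⟨fun _ => ∅, fun n => ⟨empty_subset _, finite_empty⟩, fun x => absurd ⟨x⟩ hne⟩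

/-- The filter of a hereditarily reaping family extends to an ultrafilter. -/
theorem exists_ultra_of_HR {A : Set (Set ℕ)} (hA : HR A) :
    ∃ 𝒱 : Ultrafilter ℕ, ∀ L, Pos A L → L ∈ 𝒱 := by
  let F : Filter ℕ :=
    { sets := {L | Pos A L}
      univ_sets := by
        intro B hB
        rw [inter_univ]
        exact hA.inf B hB
      sets_of_superset := fun h h' => h.mono h'
      inter_sets := fun h h' => h.inter hA h' }
  have : F.NeBot := ⟨fun hbot => by
    have h1 : ∅ ∈ F := by rw [hbot]; trivial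
    have h2 : Pos A ∅ := h1
    exact (h2.nonempty hA).ne_empty rfl⟩
  exact ⟨Ultrafilter.of F, fun L hL => Ultrafilter.of_le F hL⟩

/-- An ultrafilter for which all Menger sets of reals are `𝒱`-Menger is not principal. -/
theorem tail_mem {𝒱 : Ultrafilter ℕ} (h : ∀ X : Set ℝ, MengerSp X → UMengerSp 𝒱 X) (k : ℕ) :
    {n | k ≤ n} ∈ 𝒱 := by
  have hN : Mg (range fun i : ℕ => (i : ℝ)) :=
    Mg.of_small ((le_aleph0_iff_set_countable.2 (countable_range _)).trans_lt aleph0_lt_dN)
  have h1 := (uMengerSp_iff _ _).1 (h _ ((mengerSp_iff _).2 hN))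
  obtain ⟨g, hg⟩ := h1 (fun n m => {x : ℝ | x < m ∨ k ≤ n})
    (by
      intro n m
      by_cases hk : k ≤ n
      · simp [hk]
      · simp only [hk, or_false]
        exact isOpen_Iio)
    (by
      intro n a b hab x hx
      rcases hx with hx | hx
      · left
        have : (a : ℝ) ≤ b := by exact_mod_cast hab
        exact lt_of_lt_of_le hx this
      · exact Or.inr hx)
    (by
      rintro n _ ⟨i, rfl⟩
      exact ⟨i + 1, Or.inl (by push_cast; linarith)⟩)
  have h2 := hg ((Finset.range (k + 1)).sup g : ℕ) ⟨_, rfl⟩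
  filter_upwards [h2] with n hn
  rcases hn with hn | hn
  · have hn' : (Finset.range (k + 1)).sup g < g n := by exact_mod_cast hn
    by_contra hcon
    have := Finset.le_sup (f := g) (Finset.mem_range.2 (show n < k + 1 by omega))
    omega
  · exact hn

/-- A small family of functions is bounded modulo the ultrafilter. -/
theorem ultra_bound {𝒱 : Ultrafilter ℕ} (h : ∀ X : Set ℝ, MengerSp X → UMengerSp 𝒱 X)
    {ι : Type} (hι : #ι < dN) (f : ι → ℕ → ℕ) : ∃ g : ℕ → ℕ, ∀ i, {n | f i n ≤ g n} ∈ 𝒱 := by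
  let c : (ℕ → ℕ) → (ℕ → Bool) := fun f k => decide ((Nat.unpair k).2 = f (Nat.unpair k).1)
  have h1 : Mg (range fun i => emb (c (f i))) := Mg.of_small (mk_range_le.trans_lt hι)
  have h2 := (uMengerSp_iff _ _).1 (h _ ((mengerSp_iff _).2 h1))
  have h3 : ∀ n m, ∃ V : Set ℝ, IsOpen V ∧ emb ⁻¹' V = ⋃ k ∈ Finset.range (m + 1),
      {a : ℕ → Bool | a (Nat.pair n k) = true} := fun n m =>
    emb_closed.isInducing.isOpen_iff.1 (isOpen_biUnion fun k _ => isOpen_coord _)
  choose V hV hVe using h3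
  have hmem : ∀ n m i, emb (c (f i)) ∈ V n m ↔ f i n ≤ m := by
    intro n m i
    have h4 : emb (c (f i)) ∈ V n m ↔ c (f i) ∈ emb ⁻¹' V n m := Iff.rfl
    rw [h4, hVe]
    simp only [mem_iUnion, Finset.mem_range, mem_ofPred_eq, exists_prop, c, Nat.unpair_pair,
      decide_eq_true_eq]
    constructor
    · rintro ⟨k, hk, rfl⟩
      omega
    · intro hk
      exact ⟨f i n, by omega, rfl⟩
  obtain ⟨g, hg⟩ := h2 (fun n m => ⋃ k ∈ Finset.range (m + 1), V n k)
    (fun n m => isOpen_biUnion fun k _ => hV n k)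
    (by
      intro n a b hab x hx
      obtain ⟨k, hk, hxk⟩ := mem_iUnion₂.1 hx
      refine mem_iUnion₂.2 ⟨k, ?_, hxk⟩
      rw [Finset.mem_range] at *
      omega)
    (by
      rintro n _ ⟨i, rfl⟩
      exact ⟨f i n, mem_iUnion₂.2 ⟨f i n, Finset.mem_range.2 (Nat.lt_succ_self _),
        (hmem _ _ _).2 le_rfl⟩⟩)
  refine ⟨g, fun i => ?_⟩
  filter_upwards [hg _ ⟨i, rfl⟩] with n hn
  obtain ⟨k, hk, hxk⟩ := mem_iUnion₂.1 hn
  rw [Finset.mem_range] at hk
  have := (hmem _ _ _).1 hxk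
  omega

theorem main2 : (rN < dN ∧ dN ≤ addM) ↔
    ∃ 𝒱 : Ultrafilter ℕ, ∀ X : Set ℝ, MengerSp X → UMengerSp 𝒱 X := by
  constructor
  · rintro ⟨hr, ha⟩
    obtain ⟨A, hA, hAd, hall⟩ := exists_allF hr ha
    obtain ⟨𝒱, h𝒱⟩ := exists_ultra_of_HR hA
    refine ⟨𝒱, fun X hX => ?_⟩
    rw [uMengerSp_iff]
    intro U hU hm hc
    obtain ⟨g, hg⟩ := hall X ((mengerSp_iff X).1 hX) U hU hm hc
    exact ⟨g, fun x hx => h𝒱 _ (hg x hx)⟩
  · rintro ⟨𝒱, h⟩
    have hne : ∀ {X : Set ℝ}, UMg 𝒱 X → Mg X := by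
      intro X hX U hU hm hc
      obtain ⟨g, hg⟩ := hX U hU hm hc
      exact ⟨g, fun x hx => Ultrafilter.nonempty_of_mem (hg x hx)⟩
    constructor
    · by_contra hcon
      rw [not_lt] at hcon
      obtain ⟨X, hX, U, hU, hm, hc, hn⟩ := exists_ultra_conc hcon 𝒱 (tail_mem h)
      exact hn ((uMengerSp_iff _ _).1 (h X ((mengerSp_iff X).2 (mg_of_DConc hX))) U hU hm hc)
    · unfold addM
      refine le_csInf ?_ ?_
      · obtain ⟨X, hX⟩ : ∃ X : Set ℝ, ¬ Mg X := by
          by_contra hcon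
          push Not at hcon
          obtain ⟨D, hD, hdom⟩ := dN_mem
          let c : (ℕ → ℕ) → (ℕ → Bool) := fun f k =>
            decide ((Nat.unpair k).2 = f (Nat.unpair k).1)
          have h2 : Mg (range c) := (hcon (emb '' range c)).of_inducing emb_closed.isInducing
          obtain ⟨g, hg⟩ := h2 (fun n m => ⋃ k ∈ Finset.range (m + 1),
            {a : ℕ → Bool | a (Nat.pair n k) = true}) (fun n m => isOpen_biUnion fun k _ =>
              isOpen_coord _)
            (by
              intro n a b hab x hx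
              obtain ⟨k, hk, hxk⟩ := mem_iUnion₂.1 hx
              refine mem_iUnion₂.2 ⟨k, ?_, hxk⟩
              rw [Finset.mem_range] at *
              omega)
            (by
              rintro n _ ⟨f, rfl⟩
              refine ⟨f n, mem_iUnion₂.2 ⟨f n, Finset.mem_range.2 (Nat.lt_succ_self _), ?_⟩⟩
              simp [c])
          obtain ⟨n, hn⟩ := hg (c fun n => g n + 1) ⟨fun n => g n + 1, rfl⟩
          obtain ⟨k, hk, hxk⟩ := mem_iUnion₂.1 hn
          rw [Finset.mem_range] at hk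
          simp only [c, mem_ofPred_eq, Nat.unpair_pair, decide_eq_true_eq] at hxk
          omega
        refine ⟨_, (fun x => ({x} : Set ℝ)) '' X, rfl, ?_, ?_⟩
        · rintro _ ⟨x, _, rfl⟩
          rw [mengerSp_iff]
          refine Mg.of_small ?_
          rw [mk_singleton]
          exact one_lt_aleph0.trans aleph0_lt_dN
        · rw [mengerSp_iff]
          have : ⋃₀ ((fun x => ({x} : Set ℝ)) '' X) = X := by
            rw [sUnion_image]
            simp
          rw [this]
          exact hX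
      · rintro κ ⟨S, rfl, hS, hSn⟩
        by_contra hcon
        rw [not_le] at hcon
        apply hSn
        rw [mengerSp_iff]
        apply hne
        intro U hU hm hc
        have h1 : ∀ X : S, ∃ g : ℕ → ℕ, ∀ x ∈ (X : Set ℝ), {n | x ∈ U n (g n)} ∈ 𝒱 := fun X =>
          (uMengerSp_iff _ _).1 (h X (hS X X.2)) U hU hm fun n x hx => hc n x ⟨X, X.2, hx⟩
        choose g hg using h1
        obtain ⟨k, hk⟩ := ultra_bound h hcon g
        refine ⟨k, ?_⟩
        rintro x ⟨X, hX, hx⟩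
        filter_upwards [hg ⟨X, hX⟩ x hx, hk ⟨X, hX⟩] with n hn1 hn2
        exact hm n hn2 hn1

end Pool.Agent.Helper914M
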