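import Pool.Agent.Helper914_Men.FMenger

/-!
If all Menger sets of reals are `F`-Menger, then the product of a Menger set of reals and a
`𝔡`-concentrated set of reals is Menger.
-/

namespace Pool.Agent.Helper914M

open Set Filter Cardinal Topology

/-- Regularity of `𝔡`: the union of fewer than `𝔡` sets of size less than `𝔡` has size less
than `𝔡`. -/
theorem union_small {A : Set (Set ℕ)} (hA : HR A) (hAd : #A < dN) {ι α : Type} (hι : #ι < dN)
    {E : ι → Set α} (hE : ∀ i, #(E i) < dN) : #(⋃ i, E i) < dN := by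
  by_contra hcon
  rw [not_lt] at hcon
  obtain ⟨D, hD, hdom⟩ := dN_mem
  -- a surjection from the union onto the dominating family
  obtain ⟨f⟩ : Nonempty (D ↪ (⋃ i, E i : Set α)) := by
    rw [← Cardinal.le_def, hD]
    exact hcon
  have h1 : ∀ i, ∃ h : ℕ → ℕ, Monotone h ∧ ∀ d : {d : D // (f d : α) ∈ E i},
      Pos A {n | (d.1 : ℕ → ℕ) n ≤ h n} := by
    intro i
    refine exists_Pos_bound hA hAd ?_ (fun d : {d : D // (f d : α) ∈ E i} => (d.1 : ℕ → ℕ))
    refine lt_of_le_of_lt ?_ (hE i)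
    exact mk_le_of_injective (f := fun d : {d : D // (f d : α) ∈ E i} =>
      (⟨(f d.1 : α), d.2⟩ : E i)) (by
        intro a b hab
        simp only [Subtype.mk.injEq] at hab
        have := f.injective (Subtype.ext hab)
        exact Subtype.ext this)
  choose h hm hh using h1
  obtain ⟨k, _, hk⟩ := exists_Pos_bound hA hAd hι h
  obtain ⟨d, hd, hdk⟩ := hdom (fun n => k n + 1)
  obtain ⟨i, hi⟩ := mem_iUnion.1 (f ⟨d, hd⟩).2
  have h2 := ((hh i ⟨⟨d, hd⟩, hi⟩).inter hA (hk i)).inter hA (Pos.of_eventually hA hdk)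
  obtain ⟨n, ⟨hn1, hn2⟩, hn3⟩ := h2.nonempty hA
  simp only [mem_ofPred_eq] at hn1 hn2 hn3
  omega

/-- The neighbourhoods of a compact set. -/
theorem exists_thickening {K : Set ℝ} {x : ℝ} {V' : Set (ℝ × ℝ)} (hK : IsCompact K)
    (hV : IsOpen V') (h : ∀ y ∈ K, (x, y) ∈ V') :
    ∃ m : ℕ, ∃ W : Set ℝ, IsOpen W ∧ x ∈ W ∧
      W ×ˢ Metric.thickening (1 / ((m : ℝ) + 1)) K ⊆ V' := by
  obtain ⟨u, v, hu, hv, hxu, hKv, huv⟩ :=
    generalized_tube_lemma (s := {x}) isCompact_singleton hK hV (by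
      rintro ⟨a, b⟩ ⟨ha, hb⟩
      have ha' : a = x := ha
      subst ha'
      exact h b hb)
  obtain ⟨δ, hδ, hδv⟩ := hK.exists_thickening_subset_open hv hKv
  obtain ⟨m, hm⟩ := exists_nat_one_div_lt hδ
  exact ⟨m, u, hu, hxu rfl, (prod_mono_right ((Metric.thickening_mono hm.le K).trans hδv)).trans
    huv⟩

theorem mg_prod_conc {A : Set (Set ℕ)} (h : AllF A) {X Y Q : Set ℝ} (hX : Mg X) (hQY : Q ⊆ Y)
    (hQ : IsSigmaCompact Q) (hY : ∀ V : Set ℝ, IsOpen V → Q ⊆ V → #(Y \ V : Set ℝ) < dN) :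
    Mg (X ×ˢ Y) := by
  obtain ⟨hA, hAd, hall⟩ := h
  intro U hU hm hc
  -- cover `X × Q` at the even stages
  obtain ⟨g0, hg0⟩ := hX.prod_sigmaCompact hQ (fun n => U (2 * n)) (fun n m => hU _ _)
    (fun n => hm _) (fun n x hx => hc _ x ⟨hx.1, hQY hx.2⟩)
  let V : Set (ℝ × ℝ) := ⋃ n, U (2 * n) (g0 n)
  have hV : IsOpen V := isOpen_iUnion fun n => hU _ _
  have hXQ : ∀ x ∈ X, ∀ q ∈ Q, (x, q) ∈ V := fun x hx q hq =>
    mem_iUnion.2 (hg0 (x, q) ⟨hx, hq⟩)
  obtain ⟨C, hC, hCQ⟩ := hQ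
  -- increasing union of compact sets
  let K : ℕ → Set ℝ := fun n => ⋃ i ∈ Finset.range (n + 1), C i
  have hKc : ∀ n, IsCompact (K n) := fun n =>
    (Finset.range (n + 1)).isCompact_biUnion fun i _ => hC i
  have hKQ : ∀ n, K n ⊆ Q := fun n => by
    rw [← hCQ]
    exact iUnion₂_subset fun i _ => subset_iUnion C i
  have hQK : ∀ q ∈ Q, ∃ k, ∀ n, k ≤ n → q ∈ K n := by
    intro q hq
    rw [← hCQ] at hq
    obtain ⟨k, hk⟩ := mem_iUnion.1 hq
    exact ⟨k, fun n hn => mem_iUnion₂.2 ⟨k, Finset.mem_range.2 (by omega), hk⟩⟩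
  obtain ⟨g, hg⟩ := hall X hX (fun n m => ⋃₀ {W : Set ℝ | IsOpen W ∧
      W ×ˢ Metric.thickening (1 / ((m : ℝ) + 1)) (K n) ⊆ V})
    (fun n m => isOpen_sUnion fun W hW => hW.1)
    (fun n a b hab => sUnion_mono fun W hW => ⟨hW.1, (prod_mono_right
      (Metric.thickening_mono (by
        apply one_div_le_one_div_of_le (by positivity)
        have : (a : ℝ) ≤ b := by exact_mod_cast hab
        linarith) _)).trans hW.2⟩)
    (by
      intro n x hx
      obtain ⟨m, W, hW, hxW, hWV⟩ := exists_thickening (hKc n) hV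
        (fun y hy => hXQ x hx y (hKQ n hy))
      exact ⟨m, W, ⟨hW, hWV⟩, hxW⟩)
  let N : ℕ → Set ℝ := fun n => Metric.thickening (1 / ((g n : ℝ) + 1)) (K n)
  have hKN : ∀ n, K n ⊆ N n := fun n => Metric.self_subset_thickening (by positivity) _
  have hcov : ∀ x ∈ X, Pos A {n | ∀ y ∈ N n, (x, y) ∈ V} := fun x hx =>
    (hg x hx).mono (by
      rintro n ⟨W, hW, hxW⟩ y hy
      exact hW.2 ⟨hxW, hy⟩)
  -- the exceptional set
  let E : A × ℕ → Set ℝ := fun p => Y \ ⋃ n ∈ {n | n ∈ (p.1 : Set ℕ) ∧ p.2 ≤ n}, N n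
  have hE : ∀ p, #(E p) < dN := by
    intro p
    apply hY _ (isOpen_biUnion fun n _ => Metric.isOpen_thickening)
    intro q hq
    obtain ⟨k, hk⟩ := hQK q hq
    obtain ⟨n, hn, hn'⟩ := (hA.inf _ p.1.2).exists_gt (max k p.2)
    exact mem_iUnion₂.2 ⟨n, ⟨hn, ((le_max_right _ _).trans_lt hn').le⟩,
      hKN n (hk n ((le_max_left _ _).trans_lt hn').le)⟩
  have hpd : #(A × ℕ) < dN := by
    rw [mk_prod, lift_id, lift_id]
    exact mul_lt_of_lt aleph0_lt_dN.le hAd (by rw [mk_nat]; exact aleph0_lt_dN)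
  have hEd : #(⋃ p, E p) < dN := union_small hA hAd hpd hE
  -- the points outside of the exceptional set
  have hout : ∀ x ∈ X, ∀ y ∈ Y, y ∉ (⋃ p, E p) → (x, y) ∈ V := by
    intro x hx y hy hyE
    have h1 : Pos A {n | y ∈ N n} := by
      intro B hB
      have h2 : {n | n ∈ B ∩ {n | y ∈ N n}}.Infinite := by
        rw [← Nat.frequently_atTop_iff_infinite, frequently_atTop]
        intro k
        by_contra hcon
        apply hyE
        refine mem_iUnion.2 ⟨(⟨B, hB⟩, k), hy, ?_⟩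
        intro h3
        obtain ⟨n, hn, hyn⟩ := mem_iUnion₂.1 h3
        exact hcon ⟨n, hn.2, hn.1, hyn⟩
      exact h2
    obtain ⟨n, hn1, hn2⟩ := ((hcov x hx).inter hA h1).nonempty hA
    exact hn1 y hn2
  -- the exceptional part is Menger
  have hexc : Mg (X ×ˢ (⋃ p, E p)) := by
    have h1 : X ×ˢ (⋃ p, E p) = ⋃ y : (⋃ p, E p : Set ℝ), (fun x => (x, (y : ℝ))) '' X := by
      ext ⟨x, y⟩
      constructor
      · rintro ⟨hx, hy⟩
        exact mem_iUnion.2 ⟨⟨y, hy⟩, x, hx, rfl⟩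
      · intro h2
        obtain ⟨y', x', hx', he⟩ := mem_iUnion.1 h2
        simp only [Prod.mk.injEq] at he
        obtain ⟨rfl, rfl⟩ := he
        exact ⟨hx', y'.2⟩
    rw [h1]
    exact (FMg.iUnion hA hAd hEd fun y => (hall X hX).image (by fun_prop)).mg hA
  obtain ⟨g1, hg1⟩ := hexc (fun n => U (2 * n + 1)) (fun n m => hU _ _)
    (fun n => hm _) (fun n x hx => hc _ x ⟨hx.1, by
      obtain ⟨p, hp⟩ := mem_iUnion.1 hx.2
      exact hp.1⟩)
  refine ⟨fun n => if n % 2 = 0 then g0 (n / 2) else g1 (n / 2), ?_⟩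
  rintro ⟨x, y⟩ ⟨hx, hy⟩
  by_cases hyE : y ∈ ⋃ p, E p
  · obtain ⟨n, hn⟩ := hg1 (x, y) ⟨hx, hyE⟩
    refine ⟨2 * n + 1, ?_⟩
    have h1 : (2 * n + 1) % 2 ≠ 0 := by omega
    have h2 : (2 * n + 1) / 2 = n := by omega
    simp only [h1, if_false, h2]
    exact hn
  · obtain ⟨n, hn⟩ := mem_iUnion.1 (hout x hx y hy hyE)
    refine ⟨2 * n, ?_⟩
    have h1 : (2 * n) % 2 = 0 := by omega
    have h2 : (2 * n) / 2 = n := by omega
    simp only [h1, if_true, h2]
    exact hn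

end Pool.Agent.Helper914M
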