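import Pool.Agent.Helper914_Men.Main

/-!
Under `𝔯 < 𝔡 ≤ add(Menger)`, the Menger property is not productive if and only if there is a set
of size `𝔡`, outside of a `σ`-compact set, which is concentrated on two disjoint Menger subsets of
that `σ`-compact set.
-/

namespace Pool.Agent.Helper914M

open Set Filter Cardinal Topology

/-- `C` is `𝔡`-concentrated on `A`. -/
def Conc {α : Type} [TopologicalSpace α] (A C : Set α) : Prop :=
  ∀ V : Set α, IsOpen V → A ⊆ V → #(C \ V : Set α) < dN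

/-- The configuration: disjoint Menger subsets `A`, `B` of a `σ`-compact set `P`, and a set `C`
of size `𝔡` disjoint from `P` and `𝔡`-concentrated on `A` and on `B`. -/
def Config {α : Type} [TopologicalSpace α] (P A B C : Set α) : Prop :=
  IsSigmaCompact P ∧ A ⊆ P ∧ B ⊆ P ∧ Disjoint A B ∧ Mg A ∧ Mg B ∧ Disjoint C P ∧ #C = dN ∧
    Conc A C ∧ Conc B C

theorem Config.emb {α β : Type} [TopologicalSpace α] [TopologicalSpace β] {P A B C : Set α}
    (h : Config P A B C) {f : α → β} (hf : IsEmbedding f) :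
    Config (f '' P) (f '' A) (f '' B) (f '' C) := by
  obtain ⟨hP, hA, hB, hAB, hMA, hMB, hCP, hC, hCA, hCB⟩ := h
  have hi := hf.injective
  have aux : ∀ {A : Set α}, Conc A C → Conc (f '' A) (f '' C) := by
    intro A hCA V hV hAV
    have h1 : (f '' C) \ V ⊆ f '' (C \ (f ⁻¹' V)) := by
      rintro _ ⟨⟨x, hx, rfl⟩, hxV⟩
      exact ⟨x, ⟨hx, hxV⟩, rfl⟩
    exact (mk_le_mk_of_subset h1).trans_lt (mk_image_le.trans_lt
      (hCA _ (hV.preimage hf.continuous) fun q hq => hAV ⟨q, hq, rfl⟩))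
  refine ⟨hP.image hf.continuous, image_mono hA, image_mono hB,
    (disjoint_image_iff hi).2 hAB, hMA.image hf.continuous, hMB.image hf.continuous,
    (disjoint_image_iff hi).2 hCP, ?_, aux hCA, aux hCB⟩
  rw [mk_image_eq hi, hC]

/-- From the failure of productivity to the configuration. -/
theorem config_of_not {F : Set (Set ℕ)} (hF : AllF F) {K₁ K₂ : Type} [TopologicalSpace K₁]
    [TopologicalSpace K₂] [CompactSpace K₁] [CompactSpace K₂] [T2Space K₁] [T2Space K₂]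
    (hall : ∀ M : Set (K₁ × K₂), Mg M → FMg F M)
    {X : Set K₁} {Y : Set K₂} (hX : Mg X) (hY : Mg Y) (hXY : ¬ Mg (X ×ˢ Y)) :
    ∃ P A B C : Set (K₁ × K₂), Config P A B C := by
  classical
  obtain ⟨hFH, hFd, _⟩ := hF
  unfold Mg at hXY
  push Not at hXY
  obtain ⟨U, hU, hm, hc, hn⟩ := hXY
  let P : Set (K₁ × K₂) := ⋃ n, (⋃ m, U n m)ᶜ
  have hPs : IsSigmaCompact P := isSigmaCompact_iUnion_of_isCompact _ fun n =>
    (isOpen_iUnion (hU n)).isClosed_compl.isCompact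
  have hPn : ∀ p, p ∉ P ↔ ∀ n, ∃ m, p ∈ U n m := by
    intro p
    simp only [P, mem_iUnion, mem_compl_iff, not_exists, not_forall, not_not]
  have hXYP : ∀ p ∈ X ×ˢ Y, p ∉ P := fun p hp => (hPn p).2 fun n => hc n p hp
  -- the Menger sets
  have hMX : Mg (X ×ˢ (Set.univ : Set K₂)) := hX.prod_compact isCompact_univ
  have hMY : Mg ((Set.univ : Set K₁) ×ˢ Y) := by
    have h1 : Mg (Y ×ˢ (Set.univ : Set K₁)) := hY.prod_compact isCompact_univ
    have h2 := h1.image (f := Prod.swap) continuous_swap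
    rwa [image_swap_prod] at h2
  -- bounds on Menger sets disjoint from `P`
  have hbd : ∀ M : Set (K₁ × K₂), Mg M → (∀ p ∈ M, p ∉ P) →
      ∃ g : ℕ → ℕ, ∀ p ∈ M, Pos F {n | p ∈ U n (g n)} := fun M hM hMP =>
    hall M hM U hU hm fun n p hp => (hPn p).1 (hMP p hp) n
  -- the scale
  obtain ⟨κT, _, _, hκ, hsm, e, hem, he⟩ := exists_scale
  have hH : ∀ ξ : κT, ∃ H : ℕ → ℕ, ∀ η : Iic ξ, Pos F {n | e η n ≤ H n} := by
    intro ξ
    have h1 : #(Iic ξ) < dN := by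
      have h2 : Iic ξ = insert ξ (Iio ξ) := by
        ext η; simp [le_iff_eq_or_lt]
      rw [h2]
      exact mk_insert_le.trans_lt
        (add_lt_of_lt aleph0_lt_dN.le (hsm ξ) (one_lt_aleph0.trans aleph0_lt_dN))
    obtain ⟨H, _, hH⟩ := exists_Pos_bound hFH hFd h1 (fun η : Iic ξ => e η)
    exact ⟨H, hH⟩
  choose H hH using hH
  have hc1 : ∀ ξ : κT, ∃ p ∈ X ×ˢ Y, ¬ Pos F {n | p ∈ U n (H ξ n)} := by
    intro ξ
    obtain ⟨p, hp, hp2⟩ := hn (H ξ)
    refine ⟨p, hp, fun hcon => ?_⟩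
    obtain ⟨n, hn⟩ := hcon.nonempty hFH
    exact hp2 n hn
  choose c hcXY hcn using hc1
  -- few members are bounded by one function
  have hfew : ∀ g : ℕ → ℕ, #{ξ | Pos F {n | c ξ ∈ U n (g n)}} < dN := by
    intro g
    obtain ⟨η, hη⟩ := he g
    refine (mk_le_mk_of_subset ?_).trans_lt (hsm η)
    intro ξ hξ
    rw [mem_Iio]
    by_contra hcon
    rw [not_lt] at hcon
    apply hcn ξ
    refine (((show Pos F {n | c ξ ∈ U n (g n)} from hξ).inter hFH (hH ξ ⟨η, hcon⟩)).inter hFH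
      (Pos.of_eventually hFH hη)).mono ?_
    rintro n ⟨⟨h1, h2⟩, h3⟩
    exact hm n (h3.trans h2) h1
  have hfib : ∀ p ∈ X ×ˢ Y, #{ξ | c ξ = p} < dN := by
    intro p hp
    have h1 : ∀ n, ∃ m, p ∈ U n m := fun n => hc n p hp
    choose g hg using h1
    refine (mk_le_mk_of_subset ?_).trans_lt (hfew g)
    intro ξ hξ
    have hξ' : c ξ = p := hξ
    show Pos F {n | c ξ ∈ U n (g n)}
    rw [hξ']
    exact Pos.of_eventually hFH (Eventually.of_forall hg)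
  have hCd : #(range c) = dN := by
    apply le_antisymm (mk_range_le.trans hκ.le)
    by_contra hcon
    rw [not_le] at hcon
    have h1 : #(⋃ p : range c, {ξ | c ξ = p}) < dN :=
      union_small hFH hFd hcon fun p => hfib p (by
        obtain ⟨_, ξ, rfl⟩ := p
        exact hcXY ξ)
    have h2 : (⋃ p : range c, {ξ | c ξ = p}) = Set.univ := by
      rw [eq_univ_iff_forall]
      intro ξ
      exact mem_iUnion.2 ⟨⟨c ξ, ξ, rfl⟩, rfl⟩
    rw [h2, mk_univ, hκ] at h1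
    exact lt_irrefl _ h1
  have hconc : ∀ M : Set (K₁ × K₂), Mg M → Conc (P ∩ M) (range c) ∨ ¬ (range c ⊆ M) := by
    intro M hM
    by_cases hcM : range c ⊆ M
    · left
      intro V hV hPV
      obtain ⟨g, hg⟩ := hbd (M ∩ Vᶜ) (hM.inter_closed hV.isClosed_compl)
        (fun p hp hpP => hp.2 (hPV ⟨hpP, hp.1⟩))
      have h1 : (range c \ V) ⊆ c '' {ξ | Pos F {n | c ξ ∈ U n (g n)}} := by
        rintro _ ⟨⟨ξ, rfl⟩, hx⟩
        exact ⟨ξ, hg _ ⟨hcM ⟨ξ, rfl⟩, hx⟩, rfl⟩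
      exact (mk_le_mk_of_subset h1).trans_lt (mk_image_le.trans_lt (hfew g))
    · exact Or.inr hcM
  refine ⟨P, P ∩ (X ×ˢ Set.univ), P ∩ (Set.univ ×ˢ Y), range c, hPs, inter_subset_left,
    inter_subset_left, ?_, ?_, ?_, ?_, hCd, ?_, ?_⟩
  · rw [Set.disjoint_left]
    rintro ⟨x, y⟩ ⟨h1, h2⟩ ⟨_, h3⟩
    exact hXYP (x, y) ⟨h2.1, h3.2⟩ h1
  · rw [inter_comm]
    exact hMX.inter_sigmaCompact hPs
  · rw [inter_comm]
    exact hMY.inter_sigmaCompact hPs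
  · rw [Set.disjoint_left]
    rintro _ ⟨ξ, rfl⟩ h1
    exact hXYP _ (hcXY ξ) h1
  · refine (hconc _ hMX).resolve_right fun h => h ?_
    rintro _ ⟨ξ, rfl⟩
    exact ⟨(hcXY ξ).1, trivial⟩
  · refine (hconc _ hMY).resolve_right fun h => h ?_
    rintro _ ⟨ξ, rfl⟩
    exact ⟨trivial, (hcXY ξ).2⟩

/-- From the configuration to the failure of productivity. -/
theorem not_of_config {F : Set (Set ℕ)} (hF : AllF F) {P A B C : Set ℝ}
    (h : Config P A B C) : Mg (C ∪ A) ∧ Mg (C ∪ B) ∧ ¬ Mg ((C ∪ A) ×ˢ (C ∪ B)) := by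
  obtain ⟨hFH, hFd, hall⟩ := hF
  obtain ⟨⟨K, hK, hKP⟩, hA, hB, hAB, hMA, hMB, hCP, hC, hCA, hCB⟩ := h
  have aux : ∀ {A : Set ℝ}, Mg A → Conc A C → Mg (C ∪ A) := by
    intro A hMA hCA
    refine Mg.of_conc hMA subset_union_right fun V hV hAV => Mg.of_small ?_
    refine (mk_le_mk_of_subset ?_).trans_lt (hCA V hV hAV)
    rintro x ⟨hx | hx, hxV⟩
    · exact ⟨hx, hxV⟩
    · exact absurd (hAV hx) hxV
  refine ⟨aux hMA hCA, aux hMB hCB, fun hM => ?_⟩
  -- the diagonal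
  have h1 := (hM.inter_closed (isClosed_diagonal (X := ℝ))).image continuous_fst
  have h2 : Prod.fst '' (((C ∪ A) ×ˢ (C ∪ B)) ∩ diagonal ℝ) = C := by
    ext x
    constructor
    · rintro ⟨⟨x, y⟩, ⟨⟨hx, hy⟩, hxy⟩, rfl⟩
      have hxy' : x = y := hxy
      subst hxy'
      rcases hx with hx | hx
      · exact hx
      · rcases hy with hy | hy
        · exact hy
        · exact absurd hy (Set.disjoint_left.1 hAB hx)
    · intro hx
      exact ⟨(x, x), ⟨⟨Or.inl hx, Or.inl hx⟩, rfl⟩, rfl⟩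
  rw [h2] at h1
  -- the bounds
  let L : ℕ → Set ℝ := fun n => ⋃ i ∈ Finset.range (n + 1), K i
  have hLc : ∀ n, IsCompact (L n) := fun n =>
    (Finset.range (n + 1)).isCompact_biUnion fun i _ => hK i
  have hLP : ∀ n, L n ⊆ P := fun n => by
    rw [← hKP]
    exact iUnion₂_subset fun i _ => subset_iUnion K i
  have hPL : ∀ q ∈ P, ∃ k, ∀ n, k ≤ n → q ∈ L n := by
    intro q hq
    rw [← hKP] at hq
    obtain ⟨k, hk⟩ := mem_iUnion.1 hq
    exact ⟨k, fun n hn => mem_iUnion₂.2 ⟨k, Finset.mem_range.2 (by omega), hk⟩⟩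
  obtain ⟨g, hg⟩ := hall C h1 (fun n m => (Metric.cthickening (1 / ((m : ℝ) + 1)) (L n))ᶜ)
    (fun n m => Metric.isClosed_cthickening.isOpen_compl)
    (fun n a b hab => compl_subset_compl.2 (Metric.cthickening_mono (by
        apply one_div_le_one_div_of_le (by positivity)
        have : (a : ℝ) ≤ b := by exact_mod_cast hab
        linarith) _))
    (by
      intro n x hx
      have hxL : x ∉ L n := fun h => Set.disjoint_left.1 hCP hx (hLP n h)
      obtain ⟨δ, hδ, hδv⟩ := (hLc n).exists_cthickening_subset_open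
        (isOpen_compl_iff.2 (isClosed_singleton (x := x))) (by
          intro y hy hyx
          have : y = x := hyx
          exact hxL (this ▸ hy))
      obtain ⟨m, hm⟩ := exists_nat_one_div_lt hδ
      refine ⟨m, fun hcon => ?_⟩
      exact hδv (Metric.cthickening_mono hm.le _ hcon) rfl)
  have hsmall : ∀ p : F × ℕ, #(C \ ⋃ n ∈ {n | n ∈ (p.1 : Set ℕ) ∧ p.2 ≤ n},
      Metric.thickening (1 / ((g n : ℝ) + 1)) (L n) : Set ℝ) < dN := by
    intro p
    refine hCA _ (isOpen_biUnion fun n _ => Metric.isOpen_thickening) fun q hq => ?_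
    obtain ⟨k, hk⟩ := hPL q (hA hq)
    obtain ⟨n, hn, hn'⟩ := (hFH.inf _ p.1.2).exists_gt (max k p.2)
    exact mem_iUnion₂.2 ⟨n, ⟨hn, ((le_max_right _ _).trans_lt hn').le⟩,
      Metric.self_subset_thickening (by positivity) _ (hk n ((le_max_left _ _).trans_lt hn').le)⟩
  have hpd : #(F × ℕ) < dN := by
    rw [mk_prod, lift_id, lift_id]
    exact mul_lt_of_lt aleph0_lt_dN.le hFd (by rw [mk_nat]; exact aleph0_lt_dN)
  have h3 := union_small hFH hFd hpd hsmall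
  have h4 : C ⊆ ⋃ p : F × ℕ, (C \ ⋃ n ∈ {n | n ∈ (p.1 : Set ℕ) ∧ p.2 ≤ n},
      Metric.thickening (1 / ((g n : ℝ) + 1)) (L n) : Set ℝ) := by
    intro x hx
    obtain ⟨B0, hB0⟩ := hFH.ne
    obtain ⟨D, hD, _, hDf⟩ := (hg x hx).almost hFH hB0
    obtain ⟨k, hk⟩ := hDf.bddAbove
    refine mem_iUnion.2 ⟨(⟨D, hD⟩, k + 1), hx, fun hcon => ?_⟩
    obtain ⟨n, hn, hxn⟩ := mem_iUnion₂.1 hcon
    have h5 : x ∈ (Metric.cthickening (1 / ((g n : ℝ) + 1)) (L n))ᶜ := by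
      by_contra h6
      have := hk ⟨hn.1, h6⟩
      have h7 : k + 1 ≤ n := hn.2
      omega
    exact h5 (Metric.thickening_subset_cthickening _ _ hxn)
  have h5 := (mk_le_mk_of_subset h4).trans_lt h3
  rw [hC] at h5
  exact lt_irrefl _ h5

/-- Menger subsets of the square of the Cantor space are `F`-Menger. -/
theorem AllF.cantor2 {F : Set (Set ℕ)} (hF : AllF F) (M : Set ((ℕ → Bool) × (ℕ → Bool)))
    (hM : Mg M) : FMg F M := by
  have h1 := hF.2.2 _ (hM.image emb2_closed.continuous)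
  intro U hU hm hc
  have h2 : ∀ n m, ∃ V : Set ℝ, IsOpen V ∧ emb2 ⁻¹' V = U n m := fun n m =>
    emb2_closed.isInducing.isOpen_iff.1 (hU n m)
  choose V hV hVU using h2
  obtain ⟨g, hg⟩ := h1 (fun n m => ⋃ k ∈ Finset.range (m + 1), V n k)
    (fun n m => isOpen_biUnion fun k _ => hV n k)
    (by
      intro n a b hab x hx
      obtain ⟨k, hk, hxk⟩ := mem_iUnion₂.1 hx
      refine mem_iUnion₂.2 ⟨k, ?_, hxk⟩
      rw [Finset.mem_range] at *
      omega)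
    (by
      rintro n _ ⟨x, hx, rfl⟩
      obtain ⟨m, hm'⟩ := hc n x hx
      rw [← hVU] at hm'
      exact ⟨m, mem_iUnion₂.2 ⟨m, Finset.mem_range.2 (by omega), hm'⟩⟩)
  refine ⟨g, fun x hx => (hg _ ⟨x, hx, rfl⟩).mono ?_⟩
  intro n hn
  obtain ⟨k, hk, hxk⟩ := mem_iUnion₂.1 hn
  rw [Finset.mem_range] at hk
  have h3 : x ∈ U n k := by rw [← hVU]; exact hxk
  exact hm n (by omega) h3

/-- Reduction of the failure of productivity to the Cantor space. -/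
theorem exists_cantor_of_not {X Y : Set ℝ} (hX : Mg X) (hY : Mg Y) (h : ¬ Mg (X ×ˢ Y)) :
    ∃ X' Y' : Set (ℕ → Bool), Mg X' ∧ Mg Y' ∧ ¬ Mg (X' ×ˢ Y') := by
  by_contra hcon
  push Not at hcon
  apply h
  have hpiece : ∀ p : ℕ × ℕ, Mg ((X ∩ Icc (-(p.1 : ℝ)) p.1) ×ˢ (Y ∩ Icc (-(p.2 : ℝ)) p.2)) := by
    intro p
    obtain ⟨φ, hφ, hφr⟩ := exists_phi p.1
    obtain ⟨ψ, hψ, hψr⟩ := exists_phi p.2
    have h1 := hcon _ _ (hX.preimage_compact hφ) (hY.preimage_compact hψ)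
    have h2 : (X ∩ Icc (-(p.1 : ℝ)) p.1) ×ˢ (Y ∩ Icc (-(p.2 : ℝ)) p.2) =
        Prod.map φ ψ '' ((φ ⁻¹' X) ×ˢ (ψ ⁻¹' Y)) := by
      rw [prodMap_image_prod, image_preimage_eq_inter_range, image_preimage_eq_inter_range, hφr,
        hψr]
    rw [h2]
    exact h1.image (hφ.prodMap hψ)
  have h5 : X ×ˢ Y = ⋃ p : ℕ × ℕ, (X ∩ Icc (-(p.1 : ℝ)) p.1) ×ˢ (Y ∩ Icc (-(p.2 : ℝ)) p.2) := by
    ext ⟨x, y⟩
    simp only [mem_prod, mem_iUnion, mem_inter_iff]
    constructor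
    · rintro ⟨hx, hy⟩
      obtain ⟨k, hk⟩ := exists_nat_ge |x|
      obtain ⟨l, hl⟩ := exists_nat_ge |y|
      exact ⟨(k, l), ⟨hx, abs_le.1 hk⟩, ⟨hy, abs_le.1 hl⟩⟩
    · rintro ⟨p, ⟨hx, _⟩, ⟨hy, _⟩⟩
      exact ⟨hx, hy⟩
  rw [h5]
  exact Mg.iUnion hpiece

theorem main3 (hr : rN < dN) (ha : dN ≤ addM) :
    (∃ X Y : Set ℝ, MengerSp X ∧ MengerSp Y ∧ ¬ MengerSp (X × Y)) ↔
      ∃ P A B C : Set ℝ, IsSigmaCompact P ∧ A ⊆ P ∧ B ⊆ P ∧ Disjoint A B ∧ MengerSp A ∧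
        MengerSp B ∧ Disjoint C P ∧ #C = dN ∧
        (∀ V : Set ℝ, IsOpen V → A ⊆ V → #(C \ V : Set ℝ) < dN) ∧
        (∀ V : Set ℝ, IsOpen V → B ⊆ V → #(C \ V : Set ℝ) < dN) := by
  obtain ⟨F, hF⟩ := exists_allF hr ha
  constructor
  · rintro ⟨X, Y, hX, hY, hXY⟩
    rw [mengerSp_prod_iff] at hXY
    rw [mengerSp_iff] at hX hY
    obtain ⟨X', Y', hX', hY', hXY'⟩ := exists_cantor_of_not hX hY hXY
    obtain ⟨P, A, B, C, h⟩ := config_of_not hF hF.cantor2 hX' hY' hXY'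
    obtain ⟨h1, h2, h3, h4, h5, h6, h7⟩ := h.emb emb2_closed.isEmbedding
    exact ⟨_, _, _, _, h1, h2, h3, h4, (mengerSp_iff _).2 h5, (mengerSp_iff _).2 h6, h7⟩
  · rintro ⟨P, A, B, C, h1, h2, h3, h4, h5, h6, h7⟩
    obtain ⟨h8, h9, h10⟩ := not_of_config hF
      ⟨h1, h2, h3, h4, (mengerSp_iff _).1 h5, (mengerSp_iff _).1 h6, h7⟩
    refine ⟨_, _, (mengerSp_iff _).2 h8, (mengerSp_iff _).2 h9, ?_⟩
    rw [mengerSp_prod_iff]
    exact h10

end Pool.Agent.Helper914M
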